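import Pool.Agent.Y844.CFN.Inf3

/-!
Uniqueness of the coefficients of an absolutely convergent power series in `z_j`, `conj z_j`.
-/

namespace Pool.Agent.Y844.CFN

open MeasureTheory Filter Topology
open scoped ComplexConjugate

noncomputable section

set_option linter.unusedSectionVars false

/-- one variable, one power -/
lemma ps_zero (e : ℕ → ℂ) (he : Summable fun n => ‖e n‖)
    (h : ∀ r : ℝ, 0 < r → r ≤ 1 → ∑' n, e n * (r : ℂ) ^ n = 0) (D : ℕ) : e D = 0 := by
  induction D using Nat.strong_induction_on with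
  | _ D ih =>
    set K : ℝ := ∑' n, ‖e (n + (D + 1))‖ with hK
    have hs : Summable fun n => ‖e (n + (D + 1))‖ := (summable_nat_add_iff (D + 1)).2 he
    have key : ∀ r : ℝ, 0 < r → r ≤ 1 → ‖e D‖ ≤ r * K := by
      intro r hr0 hr1
      have hsum : Summable fun n => e n * (r : ℂ) ^ n := by
        apply Summable.of_norm_bounded he
        intro n
        rw [norm_mul, norm_pow, Complex.norm_real, Real.norm_of_nonneg hr0.le]
        exact mul_le_of_le_one_right (norm_nonneg _) (pow_le_one₀ hr0.le hr1)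
      have h1 := hsum.sum_add_tsum_nat_add (D + 1)
      rw [h r hr0 hr1, Finset.sum_range_succ, Finset.sum_eq_zero, zero_add] at h1
      · have h2 : ∀ n, e (n + (D + 1)) * (r : ℂ) ^ (n + (D + 1)) =
            (r : ℂ) ^ D * (r * (e (n + (D + 1)) * (r : ℂ) ^ n)) := by
          intro n
          rw [pow_add, pow_succ]
          ring
        simp_rw [h2] at h1
        rw [tsum_mul_left, mul_comm (e D), ← mul_add] at h1
        have hr : (r : ℂ) ^ D ≠ 0 := pow_ne_zero _ (by exact_mod_cast hr0.ne')
        have h3 := (mul_eq_zero.1 h1).resolve_left hr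
        have h4 : e D = -∑' n, (r : ℂ) * (e (n + (D + 1)) * (r : ℂ) ^ n) := by
          linear_combination h3
        rw [h4, norm_neg]
        rw [hK, ← tsum_mul_left]
        apply tsum_of_norm_bounded (hs.mul_left r).hasSum
        intro n
        rw [norm_mul, norm_mul, norm_pow, Complex.norm_real, Real.norm_of_nonneg hr0.le]
        apply mul_le_mul_of_nonneg_left _ hr0.le
        exact mul_le_of_le_one_right (norm_nonneg _) (pow_le_one₀ hr0.le hr1)
      · intro i hi
        rw [ih i (Finset.mem_range.1 hi), zero_mul]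
    have hlim : Tendsto (fun r : ℝ => r * K) (𝓝[>] 0) (𝓝 (0 * K)) :=
      (tendsto_id.mul_const K).mono_left nhdsWithin_le_nhds
    rw [zero_mul] at hlim
    have h0 : ‖e D‖ ≤ 0 := by
      apply ge_of_tendsto hlim
      have ev1 : ∀ᶠ r : ℝ in 𝓝[>] 0, r < 1 :=
        (gt_mem_nhds one_pos).filter_mono nhdsWithin_le_nhds
      filter_upwards [ev1, self_mem_nhdsWithin] with r hr1 hr0
      exact key r hr0 hr1.le
    exact norm_le_zero_iff.1 h0

lemma tsum_antidiagonal (f : ℕ × ℕ → ℂ) (hf : Summable f) :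
    ∑' x, f x = ∑' n, ∑ x ∈ Finset.HasAntidiagonal.antidiagonal n, f x := by
  have h : Summable (fun s => f (Finset.HasAntidiagonal.sigmaAntidiagonalEquivProd s)) :=
    (Equiv.summable_iff Finset.HasAntidiagonal.sigmaAntidiagonalEquivProd).2 hf
  calc ∑' x, f x = ∑' s, f (Finset.HasAntidiagonal.sigmaAntidiagonalEquivProd s) := (Equiv.tsum_eq _ _).symm
    _ = ∑' n, ∑' x : Finset.HasAntidiagonal.antidiagonal n,
          f (Finset.HasAntidiagonal.sigmaAntidiagonalEquivProd ⟨n, x⟩) := h.tsum_sigma
    _ = ∑' n, ∑ x ∈ Finset.HasAntidiagonal.antidiagonal n, f x := by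
        congr 1
        funext n
        rw [tsum_fintype]
        exact Finset.sum_coe_sort (Finset.HasAntidiagonal.antidiagonal n) f

lemma summable_antidiagonal_norm (d : ℕ × ℕ → ℂ) (hd : Summable fun q => ‖d q‖) :
    Summable fun n => ∑ x ∈ Finset.HasAntidiagonal.antidiagonal n, ‖d x‖ := by
  have h : Summable (fun s => ‖d (Finset.HasAntidiagonal.sigmaAntidiagonalEquivProd s)‖) :=
    (Equiv.summable_iff (f := fun q => ‖d q‖) Finset.HasAntidiagonal.sigmaAntidiagonalEquivProd).2 hd
  have h2 := h.sigma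
  refine (summable_congr fun n => ?_).1 h2
  rw [tsum_fintype]
  exact Finset.sum_coe_sort (Finset.HasAntidiagonal.antidiagonal n) (fun x => ‖d x‖)

/-- one variable -/
lemma uniq_one (d : ℕ × ℕ → ℂ) (hd : Summable fun q => ‖d q‖)
    (h : ∀ x : ℂ, ‖x‖ ≤ 1 → ∑' q : ℕ × ℕ, (x ^ q.1 * conj x ^ q.2) * d q = 0) (q : ℕ × ℕ) :
    d q = 0 := by
  -- the homogeneous parts vanish on the circle
  have h1 : ∀ u : ℂ, ‖u‖ = 1 → ∀ D, ∑ x ∈ Finset.HasAntidiagonal.antidiagonal D,
      (u ^ x.1 * conj u ^ x.2) * d x = 0 := by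
    intro u hu D
    have hn : ∀ x : ℕ × ℕ, ‖(u ^ x.1 * conj u ^ x.2) * d x‖ = ‖d x‖ := by
      intro x
      rw [norm_mul, norm_mul, norm_pow, norm_pow, Complex.norm_conj, hu]
      simp
    apply ps_zero (fun D => ∑ x ∈ Finset.HasAntidiagonal.antidiagonal D, (u ^ x.1 * conj u ^ x.2) * d x) _ _ D
    · apply Summable.of_nonneg_of_le (fun _ => norm_nonneg _) _ (summable_antidiagonal_norm d hd)
      intro n
      refine (norm_sum_le _ _).trans (le_of_eq ?_)
      exact Finset.sum_congr rfl fun x _ => hn x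
    · intro r hr0 hr1
      have hx : ‖(r : ℂ) * u‖ ≤ 1 := by
        rw [norm_mul, hu, Complex.norm_real, Real.norm_of_nonneg hr0.le, mul_one]; exact hr1
      have h2 := h _ hx
      rw [tsum_antidiagonal] at h2
      · rw [← h2]
        congr 1
        funext n
        rw [Finset.sum_mul]
        apply Finset.sum_congr rfl
        intro x hx
        rw [← Finset.HasAntidiagonal.mem_antidiagonal.1 hx, pow_add, map_mul, Complex.conj_ofReal, mul_pow, mul_pow]
        ring
      · apply Summable.of_norm_bounded hd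
        intro x
        rw [norm_mul, norm_mul, norm_pow, norm_pow, Complex.norm_conj]
        have a1 : ‖(r : ℂ) * u‖ ^ x.1 ≤ 1 := pow_le_one₀ (norm_nonneg _) hx
        have a2 : ‖(r : ℂ) * u‖ ^ x.2 ≤ 1 := pow_le_one₀ (norm_nonneg _) hx
        have a3 : ‖(r : ℂ) * u‖ ^ x.1 * ‖(r : ℂ) * u‖ ^ x.2 ≤ 1 :=
          mul_le_one₀ a1 (by positivity) a2
        calc ‖(r : ℂ) * u‖ ^ x.1 * ‖(r : ℂ) * u‖ ^ x.2 * ‖d x‖ ≤ 1 * ‖d x‖ :=
              mul_le_mul_of_nonneg_right a3 (norm_nonneg _)
          _ = ‖d x‖ := one_mul _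
  -- a polynomial with too many zeros
  set D := q.1 + q.2 with hD
  set P : Polynomial ℂ := ∑ k ∈ Finset.range (D + 1), Polynomial.C (d (k, D - k)) * Polynomial.X ^ k
    with hP
  have hroot : ∀ w : ℂ, ‖w‖ = 1 → P.IsRoot w := by
    intro w hw
    obtain ⟨u, hu⟩ := IsAlgClosed.exists_eq_mul_self w
    have hun : ‖u‖ = 1 := by
      rw [hu, norm_mul] at hw
      nlinarith [norm_nonneg u]
    have huu : u * conj u = 1 := by
      rw [Complex.mul_conj, Complex.normSq_eq_norm_sq, hun]; simp
    have h2 := h1 u hun D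
    have h3 : ∑ x ∈ Finset.HasAntidiagonal.antidiagonal D, w ^ x.1 * d x = 0 := by
      have h4 : ∀ x ∈ Finset.HasAntidiagonal.antidiagonal D,
          w ^ x.1 * d x = u ^ D * ((u ^ x.1 * conj u ^ x.2) * d x) := by
        intro x hx
        rw [← Finset.HasAntidiagonal.mem_antidiagonal.1 hx, pow_add, hu, mul_pow]
        have h5 : u ^ x.2 * conj u ^ x.2 = 1 := by rw [← mul_pow, huu, one_pow]
        linear_combination (-(u ^ x.1 * u ^ x.1 * d x)) * h5
      rw [Finset.sum_congr rfl h4, ← Finset.mul_sum, h2, mul_zero]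
    rw [Finset.Nat.sum_antidiagonal_eq_sum_range_succ_mk] at h3
    rw [Polynomial.IsRoot, hP, Polynomial.eval_finsetSum, ← h3]
    apply Finset.sum_congr rfl
    intro k _
    simp only [Polynomial.eval_mul, Polynomial.eval_C, Polynomial.eval_pow, Polynomial.eval_X]
    ring
  have hinf : Set.Infinite {x | P.IsRoot x} := by
    have hne : ∀ t : ℕ, (1 : ℂ) - t * Complex.I ≠ 0 := by
      intro t h0
      have := congrArg Complex.re h0
      simp at this
    apply Set.infinite_of_injective_forall_mem
      (f := fun t : ℕ => (1 + (t : ℂ) * Complex.I) / (1 - (t : ℂ) * Complex.I))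
    · intro t s hts
      simp only at hts
      rw [div_eq_div_iff (hne t) (hne s)] at hts
      have h6 : ((t : ℂ) - s) * (2 * Complex.I) = 0 := by linear_combination hts
      have h7 : (2 * Complex.I : ℂ) ≠ 0 := by simp
      have h8 := (mul_eq_zero.1 h6).resolve_right h7
      exact_mod_cast sub_eq_zero.1 h8
    · intro t
      apply hroot
      have h9 : (1 - (t : ℂ) * Complex.I) = conj (1 + (t : ℂ) * Complex.I) := by
        rw [map_add, map_mul, map_one, Complex.conj_natCast, Complex.conj_I]; ring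
      rw [norm_div, h9, Complex.norm_conj, div_self]
      intro h0
      rw [← Complex.norm_conj, ← h9] at h0
      exact hne t (norm_eq_zero.1 h0)
  have hP0 := Polynomial.eq_zero_of_infinite_isRoot P hinf
  have h10 : P.coeff q.1 = d q := by
    rw [hP, Polynomial.finsetSum_coeff]
    simp only [Polynomial.coeff_C_mul, Polynomial.coeff_X_pow]
    rw [Finset.sum_eq_single q.1]
    · rw [if_pos rfl, mul_one, hD]
      congr 1
      ext <;> simp
    · intro k _ hk
      rw [if_neg (Ne.symm hk), mul_zero]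
    · intro hk
      exfalso
      apply hk
      rw [Finset.mem_range]
      omega
  rw [← h10, hP0, Polynomial.coeff_zero]

/-- finitely many variables, indexed by `Fin n` -/
lemma uniq_fin (n : ℕ) : ∀ c : (Fin n → ℕ × ℕ) → ℂ, (Summable fun p => ‖c p‖) →
    (∀ x : Fin n → ℂ, (∀ j, ‖x j‖ ≤ 1) → ∑' p, c p * mon x p = 0) → ∀ p, c p = 0 := by
  induction n with
  | zero =>
    intro c _ h p
    have h1 := h (fun j => 0) (fun j => by simp)
    rw [tsum_eq_single p (fun p' hp' => absurd (Subsingleton.elim p' p) hp')] at h1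
    simpa [mon] using h1
  | succ n ih =>
    intro c hc h
    set e := Fin.consEquiv (fun _ : Fin (n + 1) => ℕ × ℕ) with he
    have hce : Summable fun y : (ℕ × ℕ) × (Fin n → ℕ × ℕ) => ‖c (e y)‖ :=
      (Equiv.summable_iff (f := fun p => ‖c p‖) e).2 hc
    have hsec : ∀ q, Summable fun p' => ‖c (e (q, p'))‖ := fun q => hce.prod_factor q
    have hmul : ∀ (x : Fin n → ℂ), (∀ j, ‖x j‖ ≤ 1) → ∀ p', ‖mon x p'‖ ≤ 1 :=
      fun x hx p' => norm_mon_le_one x hx p'
    have key : ∀ (x : Fin n → ℂ), (∀ j, ‖x j‖ ≤ 1) → ∀ q, ∑' p', c (e (q, p')) * mon x p' = 0 := by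
      intro x hx
      apply uniq_one
      · -- summability of the norms
        have h2 : Summable fun q => ∑' p', ‖c (e (q, p'))‖ := hce.prod
        apply Summable.of_nonneg_of_le (fun _ => norm_nonneg _) _ h2
        intro q
        apply tsum_of_norm_bounded (hsec q).hasSum
        intro p'
        rw [norm_mul]
        exact mul_le_of_le_one_right (norm_nonneg _) (hmul x hx p')
      · intro x0 hx0
        have h3 := h (Fin.cons x0 x) (by
          intro j
          refine Fin.cases ?_ ?_ j
          · simpa using hx0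
          · intro i; simpa using hx i)
        rw [← Equiv.tsum_eq e] at h3
        have h4 : ∀ y : (ℕ × ℕ) × (Fin n → ℕ × ℕ), c (e y) * mon (Fin.cons x0 x : Fin (n + 1) → ℂ) (e y) =
            (x0 ^ y.1.1 * conj x0 ^ y.1.2) * (c (e y) * mon x y.2) := by
          intro y
          have h5 : mon (Fin.cons x0 x : Fin (n + 1) → ℂ) (e y) =
              (x0 ^ y.1.1 * conj x0 ^ y.1.2) * mon x y.2 := by
            unfold mon
            rw [Fin.prod_univ_succ]
            simp [he, Fin.consEquiv]
          rw [h5]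
          ring
        simp_rw [h4] at h3
        have hsum : Summable fun y : (ℕ × ℕ) × (Fin n → ℕ × ℕ) =>
            (x0 ^ y.1.1 * conj x0 ^ y.1.2) * (c (e y) * mon x y.2) := by
          apply Summable.of_norm_bounded hce
          intro y
          rw [norm_mul, norm_mul, norm_mul, norm_pow, norm_pow, Complex.norm_conj]
          have a1 : ‖x0‖ ^ y.1.1 ≤ 1 := pow_le_one₀ (norm_nonneg _) hx0
          have a2 : ‖x0‖ ^ y.1.2 ≤ 1 := pow_le_one₀ (norm_nonneg _) hx0
          have a3 : ‖x0‖ ^ y.1.1 * ‖x0‖ ^ y.1.2 ≤ 1 := mul_le_one₀ a1 (by positivity) a2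
          have a4 : ‖c (e y)‖ * ‖mon x y.2‖ ≤ ‖c (e y)‖ :=
            mul_le_of_le_one_right (norm_nonneg _) (hmul x hx _)
          calc ‖x0‖ ^ y.1.1 * ‖x0‖ ^ y.1.2 * (‖c (e y)‖ * ‖mon x y.2‖)
              ≤ 1 * (‖c (e y)‖ * ‖mon x y.2‖) := mul_le_mul_of_nonneg_right a3 (by positivity)
            _ ≤ ‖c (e y)‖ := by rw [one_mul]; exact a4
        rw [hsum.tsum_prod] at h3
        rw [← h3]
        congr 1
        funext q
        rw [← tsum_mul_left]
    intro p
    obtain ⟨⟨q, p'⟩, rfl⟩ := e.surjective p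
    exact ih (fun p' => c (e (q, p'))) (hsec q) (fun x hx => key x hx q) p'

/-- finitely many variables -/
lemma uniq_fintype {T : Type} [Fintype T] [DecidableEq T] (c : (T → ℕ × ℕ) → ℂ)
    (hc : Summable fun p => ‖c p‖)
    (h : ∀ x : T → ℂ, (∀ j, ‖x j‖ ≤ 1) → ∑' p, c p * mon x p = 0) (p : T → ℕ × ℕ) : c p = 0 := by
  set e := Fintype.equivFin T with he
  set E : (Fin (Fintype.card T) → ℕ × ℕ) ≃ (T → ℕ × ℕ) := Equiv.arrowCongr e.symm (Equiv.refl _)
    with hE
  have hEa : ∀ q, E q = q ∘ e := by
    intro q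
    rw [hE]
    rfl
  have h1 := uniq_fin (Fintype.card T) (fun q => c (E q))
    ((Equiv.summable_iff (f := fun p => ‖c p‖) E).2 hc) (by
      intro x hx
      have h2 := h (x ∘ e) (fun j => hx _)
      rw [← Equiv.tsum_eq E] at h2
      rw [← h2]
      congr 1
      funext q
      congr 1
      unfold mon
      rw [hEa]
      exact (Equiv.prod_comp e (fun i => x i ^ (q i).1 * conj (x i) ^ (q i).2)).symm)
  obtain ⟨q, rfl⟩ := E.surjective p
  exact h1 q

/-- uniqueness of the coefficients, any number of variables -/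
theorem uniq {J : Type} [DecidableEq J] (a b : (J →₀ ℕ × ℕ) → ℝ) (ha : Summable fun p => ‖a p‖)
    (hb : Summable fun p => ‖b p‖)
    (h : ∀ z : J → ℂ, (∀ j, ‖z j‖ ≤ 1) →
      ∑' p, (a p : ℂ) * MM z p = ∑' p, (b p : ℂ) * MM z p) : a = b := by
  classical
  funext p
  set T := p.support with hT
  set c : (T → ℕ × ℕ) → ℂ := fun q => (a (emb T q) : ℂ) - (b (emb T q) : ℂ) with hc
  have hinj := emb_injective T
  have ha' : Summable fun q : T → ℕ × ℕ => ‖a (emb T q)‖ := ha.comp_injective hinj
  have hb' : Summable fun q : T → ℕ × ℕ => ‖b (emb T q)‖ := hb.comp_injective hinj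
  have hres : ∀ (f : (J →₀ ℕ × ℕ) → ℝ) (x : T → ℂ),
      ∑' p, (f p : ℂ) * MM (fun j => if h : j ∈ T then x ⟨j, h⟩ else 0) p =
        ∑' q, (f (emb T q) : ℂ) * mon x q := by
    intro f x
    rw [← hinj.tsum_eq]
    · congr 1
      funext q
      rw [MM_emb]
      congr 2
      funext j
      simp
    · intro p' hp'
      apply mem_range_emb
      intro j hj
      by_contra hjT
      apply hp'
      have h0 : MM (fun j => if h : j ∈ T then x ⟨j, h⟩ else 0) p' = 0 := by
        unfold MM Finsupp.prod
        apply Finset.prod_eq_zero hj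
        beta_reduce
        rw [dif_neg hjT]
        have hne : p' j ≠ 0 := Finsupp.mem_support_iff.1 hj
        have : (p' j).1 ≠ 0 ∨ (p' j).2 ≠ 0 := by
          by_contra hcon
          push Not at hcon
          exact hne (Prod.ext hcon.1 hcon.2)
        rcases this with h | h
        · rw [zero_pow h, zero_mul]
        · rw [map_zero, zero_pow h, mul_zero]
      beta_reduce
      rw [h0, mul_zero]
  have key := uniq_fintype c (by
      apply Summable.of_nonneg_of_le (fun _ => norm_nonneg _) _ (ha'.add hb')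
      intro q
      refine (norm_sub_le _ _).trans ?_
      rw [Complex.norm_real, Complex.norm_real]) (by
      intro x hx
      have hz : ∀ j : J, ‖(fun j => if h : j ∈ T then x ⟨j, h⟩ else 0 : J → ℂ) j‖ ≤ 1 := by
        intro j
        beta_reduce
        split_ifs with hj
        · exact hx _
        · simp
      have h1 := h _ hz
      rw [hres a x, hres b x] at h1
      have hsa : Summable fun q : T → ℕ × ℕ => (a (emb T q) : ℂ) * mon x q := by
        apply Summable.of_norm_bounded ha'
        intro q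
        rw [norm_mul, Complex.norm_real]
        exact mul_le_of_le_one_right (norm_nonneg _) (norm_mon_le_one x hx q)
      have hsb : Summable fun q : T → ℕ × ℕ => (b (emb T q) : ℂ) * mon x q := by
        apply Summable.of_norm_bounded hb'
        intro q
        rw [norm_mul, Complex.norm_real]
        exact mul_le_of_le_one_right (norm_nonneg _) (norm_mon_le_one x hx q)
      have h2 := hsa.tsum_sub hsb
      rw [h1, sub_self] at h2
      rw [← h2]
      congr 1
      funext q
      rw [hc]
      ring) (fun j => p j)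
  have hp : emb T (fun j => p j) = p := by
    ext1 j
    by_cases hj : j ∈ T
    · exact emb_apply T _ ⟨j, hj⟩
    · have h1 : p j = 0 := Finsupp.notMem_support_iff.1 hj
      simp only [emb, Finsupp.onFinset_apply]
      rw [dif_neg hj, h1]
  rw [hc] at key
  simp only at key
  rw [hp] at key
  exact_mod_cast sub_eq_zero.1 key

end

end Pool.Agent.Y844.CFN
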