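import Pool.Agent.Y844.CFN.Base

/-!
Functions of finitely many variables acting on characteristic functions: the main direction.

`J` is a finite index set. If `F (fun j => φ_j ξ)` is a characteristic function for all families of
characteristic functions `φ_j` of finitely supported probability measures, then `F` is on the closed
polydisc a power series in `z_j`, `conj z_j` with nonnegative coefficients of sum one.
-/

namespace Pool.Agent.Y844.CFN

open MeasureTheory Filter Topology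
open scoped ComplexConjugate

noncomputable section

set_option linter.unusedSectionVars false

variable {J : Type} [Fintype J] [DecidableEq J]

/-- Working version of admissibility (finitely supported measures only) for functions defined on
all of `J → ℂ`. -/
def Adm (F : (J → ℂ) → ℂ) : Prop :=
  ∀ μ : J → Measure ℝ, (∀ j, PF (μ j)) →
    ∃ ρ : Measure ℝ, IsProbabilityMeasure ρ ∧
      ∀ ξ : ℝ, charFun ρ ξ = F (fun j => charFun (μ j) ξ)

section positivity

variable {ι : Type} [Fintype ι] [DecidableEq ι] {Q : ℕ} [NeZero Q]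

lemma coef_nonneg {F : (J → ℂ) → ℂ} (hF : Adm F) (M : ι → ℤ) (A : J → Finset ι)
    (hA : ∀ j, 0 < (A j).card) :
    (∀ t, ∃ r : ℝ, 0 ≤ r ∧ coef (fun u => F (fun j => av Q M (A j) u)) t = r) ∧
      (∀ u, ‖F (fun j => av Q M (A j) u)‖ ≤ 1) := by
  choose μ hμ hμ' using fun j => exists_measure_av (Q := Q) M (A j) (hA j)
  obtain ⟨ρ, hρ, hρ'⟩ := hF μ hμ
  have key : ∀ w : ℤ, charFun ρ (w : ℝ) = F (fun j => av Q M (A j) (w : ZMod Q)) := by
    intro w; rw [hρ']; simp_rw [hμ']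
  constructor
  · intro t
    obtain ⟨r, hr0, hr⟩ := charFun_posdef ρ (Finset.univ : Finset (ZMod Q))
      (fun k => (k.val : ℝ)) (fun k => ZMod.stdAddChar (-(t * k)))
    have hQ : (Q : ℂ) ≠ 0 := by exact_mod_cast NeZero.ne Q
    refine ⟨r / (Q * Q), by positivity, ?_⟩
    have h1 : ∀ k l : ZMod Q, (ZMod.stdAddChar (-(t * k)) : ℂ) *
        conj (ZMod.stdAddChar (-(t * l)) : ℂ) * charFun ρ ((k.val : ℝ) - (l.val : ℝ)) =
        (fun u => F (fun j => av Q M (A j) u) * ZMod.stdAddChar (-(t * u))) (k - l) := by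
      intro k l
      have e : ((k.val : ℝ) - (l.val : ℝ)) = (((k.val : ℤ) - (l.val : ℤ) : ℤ) : ℝ) := by
        push_cast; rfl
      rw [e, key]
      have e2 : (((k.val : ℤ) - (l.val : ℤ) : ℤ) : ZMod Q) = k - l := by
        push_cast
        rw [ZMod.natCast_zmod_val, ZMod.natCast_zmod_val]
      rw [e2, conj_stdAddChar, ← AddChar.map_add_eq_mul]
      have e3 : -(t * k) + - -(t * l) = -(t * (k - l)) := by ring
      rw [e3]
      ring
    simp_rw [h1] at hr
    rw [Finset.sum_comm] at hr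
    have h2 : ∀ l : ZMod Q, ∑ k : ZMod Q,
        (fun u => F (fun j => av Q M (A j) u) * ZMod.stdAddChar (-(t * u))) (k - l) =
        ∑ u : ZMod Q, F (fun j => av Q M (A j) u) * ZMod.stdAddChar (-(t * u)) := by
      intro l
      exact Equiv.sum_comp (Equiv.subRight l)
        (fun u => F (fun j => av Q M (A j) u) * ZMod.stdAddChar (-(t * u)))
    simp_rw [h2] at hr
    rw [Finset.sum_const, Finset.card_univ, ZMod.card, nsmul_eq_mul] at hr
    unfold coef
    push_cast
    rw [← hr]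
    field_simp
  · intro u
    have := norm_charFun_le_one (μ := ρ) ((u.val : ℤ) : ℝ)
    rw [key] at this
    have e2 : (((u.val : ℤ)) : ZMod Q) = u := by
      push_cast
      rw [ZMod.natCast_zmod_val]
    rwa [e2] at this

lemma F_one {F : (J → ℂ) → ℂ} (hF : Adm F) : F (fun _ => 1) = 1 := by
  obtain ⟨ρ, hρ, hρ'⟩ := hF (fun _ => Measure.dirac 0) (fun _ => ⟨inferInstance, {0}, by
    rw [Measure.dirac_apply' _ (Finset.measurableSet _).compl]; simp⟩)
  have := hρ' 0
  simpa using this.symm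

end positivity

/-! ### Continuity in the open polydisc -/

/-- an admissible function is continuous at every point of the open polydisc -/
lemma adm_continuous {F : (J → ℂ) → ℂ} (hF : Adm F) {x : J → ℂ} (hx : ‖x‖ < 1)
    (ε : ℝ) (hε : 0 < ε) :
    ∃ δ > 0, ∀ x' : J → ℂ, (∀ j, ‖x' j - x j‖ < δ) → ‖F x' - F x‖ ≤ ε := by
  set m : ℝ := ‖x‖ with hm
  have hm1 : m < 1 := hx
  have hm0 : 0 ≤ m := norm_nonneg x
  set R : ℝ := (1 + m) / 2 with hR
  have hR0 : 0 ≤ R := by rw [hR]; linarith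
  have hR1 : R < 1 := by rw [hR]; linarith
  set c : ℝ := (R - m) / 2 with hc
  have hc0 : 0 < c := by rw [hc, hR]; linarith
  obtain ⟨Q, κ, _, K, hQ, hrep⟩ := exists_rep R hR0 hR1
  -- the auxiliary characteristic function `F (cos ξ, ..., cos ξ)`
  obtain ⟨μ0, hμ0, hμ0'⟩ := exists_finite_measure (ι := Fin 2) (fun _ => 1 / 2)
    (fun _ => by norm_num) (by simp) ![1, -1]
  have hcosφ : ∀ ξ : ℝ, charFun μ0 ξ = Real.cos ξ := by
    intro ξ
    rw [hμ0', Fin.sum_univ_two, Complex.ofReal_cos, Complex.cos]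
    simp
    ring
  obtain ⟨ρ0, hρ0, hρ0'⟩ := hF (fun _ => μ0) (fun _ => hμ0)
  have hcont : Tendsto (fun ξ : ℝ => charFun ρ0 ξ) (𝓝[>] 0) (𝓝 1) := by
    have h1 : Continuous (charFun ρ0) := continuous_charFun
    have h2 := h1.tendsto 0
    rw [charFun_zero] at h2
    simp only [probReal_univ, Complex.ofReal_one] at h2
    exact h2.mono_left nhdsWithin_le_nhds
  have hev1 : ∀ᶠ η : ℝ in 𝓝[>] 0, ‖charFun ρ0 η - 1‖ < ε ^ 2 / 2 := by
    have := (tendsto_iff_norm_sub_tendsto_zero.1 hcont).eventually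
      (gt_mem_nhds (by positivity : (0:ℝ) < ε ^ 2 / 2))
    exact this
  have hev2 : ∀ᶠ η : ℝ in 𝓝[>] 0, η < min 1 c :=
    (gt_mem_nhds (lt_min one_pos hc0)).filter_mono nhdsWithin_le_nhds
  have hev3 : ∀ᶠ η : ℝ in 𝓝[>] 0, 0 < η := self_mem_nhdsWithin
  obtain ⟨η, hη1, hη2, hη3⟩ := (hev1.and (hev2.and hev3)).exists
  have hη4 : η < 1 := lt_of_lt_of_le hη2 (min_le_left _ _)
  have hη5 : η < c := lt_of_lt_of_le hη2 (min_le_right _ _)
  have hpi := Real.pi_gt_three
  have hsin0 : 0 < Real.sin η := Real.sin_pos_of_pos_of_lt_pi hη3 (by linarith)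
  have hsin : η / 2 ≤ Real.sin η := by
    have h1 := Real.mul_le_sin hη3.le (by linarith)
    have h2 : 1 / 2 ≤ 2 / Real.pi := by
      rw [div_le_div_iff₀ (by norm_num) (by positivity)]
      have := Real.pi_le_four
      linarith
    nlinarith
  have hcos : 1 - Real.cos η ≤ c * Real.sin η := by
    have h1 := Real.one_sub_sq_div_two_le_cos (x := η)
    nlinarith
  refine ⟨c * Real.sin η, by positivity, ?_⟩
  intro x' hx'
  have hcosn : 0 ≤ 1 - Real.cos η := by linarith [Real.cos_le_one η]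
  have bound : ∀ a a' : ℂ, ‖a‖ ≤ m → ‖a' - a‖ < c * Real.sin η →
      ‖a‖ + (‖a - a'‖ + ‖a‖ * (1 - Real.cos η)) / Real.sin η ≤ R := by
    intro a a' ha haa
    have h1 : (‖a - a'‖ + ‖a‖ * (1 - Real.cos η)) / Real.sin η ≤ 2 * c := by
      rw [div_le_iff₀ hsin0]
      rw [norm_sub_rev] at haa
      have h2 : ‖a‖ * (1 - Real.cos η) ≤ 1 * (1 - Real.cos η) := by
        apply mul_le_mul_of_nonneg_right _ hcosn
        linarith
      nlinarith
    have h3 : R = m + 2 * c := by rw [hc]; ring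
    linarith
  choose μ hμ hμ1 hμ2 hμ3 using fun j => exists_pair hQ hrep η hsin0 (x j) (x' j)
    (bound (x j) (x' j) (norm_le_pi_norm x j) (hx' j))
  obtain ⟨ρ, hρ, hρ'⟩ := hF μ hμ
  have h1 := charFun_ineq ρ ((1 : ℝ) / Q) ((1 : ℝ) / Q - 1)
  have e1 : (1 : ℝ) / Q - ((1 : ℝ) / Q - 1) = 1 := by ring
  rw [e1, hρ', hρ', hρ'] at h1
  simp_rw [hμ1, hμ2, hμ3] at h1
  have e2 : F (fun _ => ((Real.cos η : ℝ) : ℂ)) = charFun ρ0 η := by
    rw [hρ0']; simp_rw [hcosφ]
  rw [e2] at h1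
  have h2 : 1 - (charFun ρ0 η).re ≤ ‖charFun ρ0 η - 1‖ := by
    have := Complex.re_le_norm (1 - charFun ρ0 η)
    rw [norm_sub_rev] at this
    simpa using this
  rw [norm_sub_rev]
  have h3 : ‖F x - F x'‖ ^ 2 ≤ ε ^ 2 := by
    have : ‖F (fun j => x j) - F (fun j => x' j)‖ ^ 2 ≤ ε ^ 2 := by linarith
    exact this
  exact le_of_sq_le_sq h3 hε.le

/-! ### The approximating power series -/

/-- the monomials -/
def mon (x : J → ℂ) (p : J → ℕ × ℕ) : ℂ := ∏ j, (x j ^ (p j).1 * (conj (x j)) ^ (p j).2)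

/-- the type of a digit vector -/
def typ {n : ℕ} (k : J × Fin n → ℤ) : J → ℕ × ℕ :=
  fun j => (∑ i, (k (j, i)).toNat, ∑ i, (-k (j, i)).toNat)

lemma prod_xp {n : ℕ} (x : J → ℂ) (k : J × Fin n → ℤ) :
    ∏ i, xp (x i.1) (k i) = mon x (typ k) := by
  rw [Fintype.prod_prod_type]
  unfold mon
  apply Finset.prod_congr rfl
  intro j _
  simp only [xp, typ]
  rw [Finset.prod_mul_distrib, Finset.prod_pow_eq_pow_sum, Finset.prod_pow_eq_pow_sum]

lemma exists_approx {F : (J → ℂ) → ℂ} (hF : Adm F) (n : ℕ) (hn : 1 ≤ n) :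
    ∃ a : (J → ℕ × ℕ) → ℝ, (∀ p, 0 ≤ a p) ∧ (∀ s : Finset (J → ℕ × ℕ), ∑ p ∈ s, a p ≤ 1) ∧
      ∀ (x : J → ℂ) (R : ℝ), R < 1 → (∀ j, ‖x j‖ ≤ R) → 4 * R ^ (n + 1) ≤ 1 - R ^ 2 →
        ∀ ε C : ℝ, 0 ≤ C → (∀ x', ‖F x'‖ ≤ 1 →
          ‖F x' - F x‖ ≤ ε + C * ∑ j, ‖x' j - x j‖ ^ 2) →
        ∃ T : ℂ, HasSum (fun p => (a p : ℂ) * mon x p) T ∧
          ‖T - F x‖ ≤ ε + C * ∑ _j : J, (n : ℝ)⁻¹ := by
  classical
  obtain ⟨Q, M, hQ, hM⟩ := exists_dissoc (J × Fin n) n
  have : NeZero Q := ⟨hQ⟩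
  set A : J → Finset (J × Fin n) := fun j => Finset.univ.filter (fun i => i.1 = j) with hA
  have hAc : ∀ j, (A j).card = n := by
    intro j
    have : A j = ({j} : Finset J) ×ˢ (Finset.univ : Finset (Fin n)) := by
      ext ⟨b, i⟩
      simp only [hA, Finset.mem_filter, Finset.mem_univ, true_and, Finset.mem_product,
        Finset.mem_singleton, and_true]
    rw [this, Finset.card_product]; simp
  obtain ⟨hc, hb⟩ := coef_nonneg (Q := Q) hF M A (fun j => by rw [hAc]; omega)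
  set f : ZMod Q → ℂ := fun u => F (fun j => av Q M (A j) u) with hf
  choose c hc0 hc using hc
  have hsum : ∑ t, c t = 1 := by
    have h1 := sum_coef f
    simp_rw [hc] at h1
    have h2 : f 0 = 1 := by
      rw [hf]
      simp only
      have h3 : (fun j => av Q M (A j) (0 : ZMod Q)) = fun _ => 1 := by
        funext j
        exact av_zero (Q := Q) M (A j) (by rw [hAc]; omega)
      rw [h3]
      exact F_one hF
    rw [h2] at h1
    exact_mod_cast h1
  refine ⟨fun p => ∑ k ∈ SS (J × Fin n) n, if typ k = p then c (freq Q M k) else 0, ?_, ?_, ?_⟩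
  · intro p
    apply Finset.sum_nonneg
    intro k _
    split_ifs
    · exact hc0 _
    · exact le_rfl
  · intro s
    rw [Finset.sum_comm]
    calc ∑ k ∈ SS (J × Fin n) n, ∑ p ∈ s, (if typ k = p then c (freq Q M k) else 0)
        ≤ ∑ k ∈ SS (J × Fin n) n, c (freq Q M k) := by
          apply Finset.sum_le_sum
          intro k _
          rw [Finset.sum_ite_eq]
          split_ifs
          · exact le_rfl
          · exact hc0 _
      _ = ∑ t ∈ (SS (J × Fin n) n).image (freq Q M), c t := by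
          rw [Finset.sum_image]
          intro k hk k' hk' h
          exact hM k hk k' hk' h
      _ ≤ ∑ t, c t := Finset.sum_le_sum_of_subset_of_nonneg (Finset.subset_univ _)
          (fun t _ _ => hc0 t)
      _ = 1 := hsum
  · intro x R hR hx hh ε C hC hbd
    set X : J × Fin n → ℂ := fun i => x i.1 with hX
    have hXR : ∀ i, ‖X i‖ ≤ R := fun i => hx i.1
    refine ⟨EE Q M n X f, ?_, ?_⟩
    · rw [EE_eq]
      have h1 : (fun p => (((∑ k ∈ SS (J × Fin n) n,
          if typ k = p then c (freq Q M k) else 0 : ℝ)) : ℂ) * mon x p) =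
          fun p => ∑ k ∈ SS (J × Fin n) n,
            (if p = typ k then (∏ i, xp (X i) (k i)) * coef f (freq Q M k) else 0) := by
        funext p
        rw [Complex.ofReal_sum, Finset.sum_mul]
        apply Finset.sum_congr rfl
        intro k _
        by_cases h : typ k = p
        · rw [if_pos h, if_pos h.symm, hc, prod_xp, h]
          ring
        · rw [if_neg h, if_neg (fun h' => h h'.symm)]
          simp
      rw [h1]
      apply hasSum_sum
      intro k _
      exact hasSum_ite_eq _ _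
    · have := EE_lln hM hn X R hR hXR hh A (fun j => by rw [hAc]; omega) x
        (by intro j i hi; simp only [hA, Finset.mem_filter, Finset.mem_univ, true_and] at hi
            simp [hX, hi])
        f (F x) ε C hC (by
          intro u
          exact hbd _ (hb u))
      simp_rw [hAc] at this
      exact this

/-- the majorant of the monomials -/
def maj (R : ℝ) (p : J → ℕ × ℕ) : ℝ := ∏ j, (R ^ (p j).1 * R ^ (p j).2)

lemma norm_mon_le (x : J → ℂ) (R : ℝ) (hx : ∀ j, ‖x j‖ ≤ R) (p : J → ℕ × ℕ) :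
    ‖mon x p‖ ≤ maj R p := by
  unfold mon maj
  rw [norm_prod]
  apply Finset.prod_le_prod (fun j _ => norm_nonneg _)
  intro j _
  rw [norm_mul, norm_pow, norm_pow, Complex.norm_conj]
  have h0 : 0 ≤ ‖x j‖ := norm_nonneg _
  have h1 := hx j
  have h2 : 0 ≤ R := h0.trans h1
  gcongr

lemma summable_pi_prod (g : ℕ × ℕ → ℝ) (hg : ∀ q, 0 ≤ g q) (hs : Summable g) :
    Summable (fun p : J → ℕ × ℕ => ∏ j, g (p j)) := by
  classical
  apply summable_of_sum_le (c := ∏ _j : J, ∑' q, g q)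
    (fun p => Finset.prod_nonneg fun j _ => hg _)
  intro s
  calc ∑ p ∈ s, ∏ j, g (p j)
      ≤ ∑ p ∈ Fintype.piFinset (fun j => s.image (fun p => p j)), ∏ j, g (p j) := by
        apply Finset.sum_le_sum_of_subset_of_nonneg
        · intro p hp
          rw [Fintype.mem_piFinset]
          intro j
          exact Finset.mem_image_of_mem (fun p : J → ℕ × ℕ => p j) hp
        · intros
          exact Finset.prod_nonneg fun j _ => hg _
    _ = ∏ j, ∑ q ∈ s.image (fun p => p j), g q := (Finset.prod_univ_sum _ _).symm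
    _ ≤ ∏ _j : J, ∑' q, g q := Finset.prod_le_prod
        (fun j _ => Finset.sum_nonneg fun q _ => hg q)
        (fun j _ => hs.sum_le_tsum _ (fun q _ => hg q))

lemma summable_maj (R : ℝ) (hR0 : 0 ≤ R) (hR : R < 1) :
    Summable (fun p : J → ℕ × ℕ => maj R p) := by
  have hr' := summable_geometric_of_lt_one hR0 hR
  have h1 : Summable (fun q : ℕ × ℕ => R ^ q.1 * R ^ q.2) :=
    hr'.mul_of_nonneg hr' (fun n => pow_nonneg hR0 n) (fun n => pow_nonneg hR0 n)
  exact summable_pi_prod (fun q : ℕ × ℕ => R ^ q.1 * R ^ q.2)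
    (fun q => mul_nonneg (pow_nonneg hR0 _) (pow_nonneg hR0 _)) h1

lemma maj_nonneg (R : ℝ) (hR0 : 0 ≤ R) (p : J → ℕ × ℕ) : 0 ≤ maj R p :=
  Finset.prod_nonneg fun _ _ => mul_nonneg (pow_nonneg hR0 _) (pow_nonneg hR0 _)

lemma continuous_mon (p : J → ℕ × ℕ) : Continuous fun x : J → ℂ => mon x p := by
  unfold mon
  apply continuous_finsetProd
  intro j _
  exact ((continuous_apply j).pow _).mul
    ((Complex.continuous_conj.comp (continuous_apply j)).pow _)

lemma exists_series {F : (J → ℂ) → ℂ} (hF : Adm F) :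
    ∃ a : (J → ℕ × ℕ) → ℝ, (∀ p, 0 ≤ a p) ∧ Summable a ∧
      ∀ x : J → ℂ, ‖x‖ < 1 → HasSum (fun p => (a p : ℂ) * mon x p) (F x) := by
  choose a ha0 ha1 ha using fun n : ℕ => exists_approx hF (n + 1) (by omega)
  set U : Ultrafilter ℕ := hyperfilter ℕ with hU
  have hIcc : ∀ n p, a n p ∈ Set.Icc (0 : ℝ) 1 := by
    intro n p
    refine ⟨ha0 n p, ?_⟩
    have := ha1 n {p}
    simpa using this
  have hlim : ∀ p, ∃ L ∈ Set.Icc (0 : ℝ) 1, Tendsto (fun n => a n p) U (𝓝 L) := by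
    intro p
    have h1 : (↑(U.map fun n => a n p) : Filter ℝ) ≤ 𝓟 (Set.Icc (0 : ℝ) 1) := by
      rw [le_principal_iff, Ultrafilter.mem_coe, Ultrafilter.mem_map]
      exact Filter.univ_mem' (fun n => hIcc n p)
    obtain ⟨L, hL, hL'⟩ := isCompact_Icc.ultrafilter_le_nhds _ h1
    exact ⟨L, hL, hL'⟩
  choose L hL hL' using hlim
  have hLs : ∀ s : Finset (J → ℕ × ℕ), ∑ p ∈ s, L p ≤ 1 := by
    intro s
    have h1 : Tendsto (fun n => ∑ p ∈ s, a n p) U (𝓝 (∑ p ∈ s, L p)) :=
      tendsto_finsetSum s fun p _ => hL' p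
    exact le_of_tendsto h1 (Filter.Eventually.of_forall fun n => ha1 n s)
  have hLsum : Summable L := summable_of_sum_le (fun p => (hL p).1) hLs
  refine ⟨L, fun p => (hL p).1, hLsum, ?_⟩
  intro x hx
  set R : ℝ := ‖x‖ with hR
  have hR1 : R < 1 := hx
  have hR0 : 0 ≤ R := norm_nonneg x
  have hxR : ∀ j, ‖x j‖ ≤ R := fun j => norm_le_pi_norm x j
  have hbound : Summable (fun p : J → ℕ × ℕ => maj R p) := summable_maj R hR0 hR1
  -- termwise limit
  have hT1 : Tendsto (fun n => ∑' p, (a n p : ℂ) * mon x p) U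
      (𝓝 (∑' p, (L p : ℂ) * mon x p)) := by
    apply tendsto_tsum_of_dominated_convergence hbound
    · intro p
      exact ((Complex.continuous_ofReal.tendsto _).comp (hL' p)).mul_const _
    · refine Filter.Eventually.of_forall fun n p => ?_
      rw [norm_mul, Complex.norm_real, Real.norm_of_nonneg (ha0 n p)]
      calc a n p * ‖mon x p‖ ≤ 1 * ‖mon x p‖ :=
            mul_le_mul_of_nonneg_right (hIcc n p).2 (norm_nonneg _)
        _ = ‖mon x p‖ := one_mul _
        _ ≤ maj R p := norm_mon_le x R hxR p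
  -- the limit is `F x`
  have hT2 : Tendsto (fun n => ∑' p, (a n p : ℂ) * mon x p) atTop (𝓝 (F x)) := by
    rw [Metric.tendsto_atTop]
    intro ε hε
    obtain ⟨δ, hδ, hcont⟩ := adm_continuous hF hx (ε / 4) (by linarith)
    set C : ℝ := (1 + ‖F x‖) / δ ^ 2 with hC
    have hC0 : 0 ≤ C := by positivity
    have hbd : ∀ x' : J → ℂ, ‖F x'‖ ≤ 1 →
        ‖F x' - F x‖ ≤ ε / 4 + C * ∑ j, ‖x' j - x j‖ ^ 2 := by
      intro x' hn
      by_cases h1 : ∀ j, ‖x' j - x j‖ < δ
      · have := hcont x' h1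
        have h3 : 0 ≤ C * ∑ j, ‖x' j - x j‖ ^ 2 := by positivity
        linarith
      · push Not at h1
        obtain ⟨j, h1⟩ := h1
        have h3 : ‖F x' - F x‖ ≤ 1 + ‖F x‖ := (norm_sub_le _ _).trans (by linarith)
        have h4 : 1 + ‖F x‖ ≤ C * ∑ j, ‖x' j - x j‖ ^ 2 := by
          rw [hC, div_mul_eq_mul_div, le_div_iff₀ (by positivity)]
          have : δ ^ 2 ≤ ∑ j, ‖x' j - x j‖ ^ 2 := by
            have h5 := pow_le_pow_left₀ hδ.le h1 2
            have h6 := Finset.single_le_sum (f := fun j => ‖x' j - x j‖ ^ 2)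
              (fun i _ => sq_nonneg _) (Finset.mem_univ j)
            exact h5.trans h6
          have hp : 0 ≤ 1 + ‖F x‖ := by positivity
          exact mul_le_mul_of_nonneg_left this hp
        linarith
    have ev1 : ∀ᶠ n : ℕ in atTop, 4 * R ^ (n + 1 + 1) ≤ 1 - R ^ 2 := by
      have h1 : Tendsto (fun n : ℕ => 4 * R ^ (n + 1 + 1)) atTop (𝓝 (4 * 0)) :=
        (((tendsto_pow_atTop_nhds_zero_of_lt_one hR0 hR1).comp (tendsto_add_atTop_nat 1)).comp
          (tendsto_add_atTop_nat 1)).const_mul 4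
      rw [mul_zero] at h1
      have h2 : (0 : ℝ) < 1 - R ^ 2 := by nlinarith
      filter_upwards [h1.eventually (gt_mem_nhds h2)] with n hn
      exact hn.le
    have ev2 : ∀ᶠ n : ℕ in atTop, C * ∑ _j : J, (((n + 1 : ℕ) : ℝ))⁻¹ < ε / 4 := by
      have h1 : Tendsto (fun n : ℕ => C * ∑ _j : J, (((n + 1 : ℕ) : ℝ))⁻¹) atTop
          (𝓝 (C * ∑ _j : J, (0 : ℝ))) := by
        have h2 : Tendsto (fun n : ℕ => (((n + 1 : ℕ) : ℝ))⁻¹) atTop (𝓝 0) :=
          (tendsto_inv_atTop_nhds_zero_nat (𝕜 := ℝ)).comp (tendsto_add_atTop_nat 1)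
        exact (tendsto_finsetSum _ fun _ _ => h2).const_mul C
      rw [Finset.sum_const_zero, mul_zero] at h1
      exact h1.eventually (gt_mem_nhds (by linarith))
    obtain ⟨N, hN⟩ := (ev1.and ev2).exists_forall_of_atTop
    refine ⟨N, fun n hn => ?_⟩
    obtain ⟨h1, h2⟩ := hN n hn
    obtain ⟨T, hT, hT'⟩ := ha n x R hR1 hxR h1 (ε / 4) C hC0 hbd
    rw [hT.tsum_eq, dist_eq_norm]
    calc ‖T - F x‖ ≤ ε / 4 + C * ∑ _j : J, (((n + 1 : ℕ) : ℝ))⁻¹ := hT'
      _ < ε := by linarith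
  have heq := tendsto_nhds_unique hT1 (hT2.mono_left Nat.hyperfilter_le_atTop)
  rw [← heq]
  apply Summable.hasSum
  apply Summable.of_norm_bounded hbound
  intro p
  rw [norm_mul, Complex.norm_real, Real.norm_of_nonneg (hL p).1]
  calc L p * ‖mon x p‖ ≤ 1 * ‖mon x p‖ :=
        mul_le_mul_of_nonneg_right (hL p).2 (norm_nonneg _)
    _ = ‖mon x p‖ := one_mul _
    _ ≤ maj R p := norm_mon_le x R hxR p

/-! ### The boundary -/

lemma norm_mon_le_one (x : J → ℂ) (hx : ∀ j, ‖x j‖ ≤ 1) (p : J → ℕ × ℕ) : ‖mon x p‖ ≤ 1 := by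
  have := norm_mon_le x 1 hx p
  simpa [maj] using this

theorem forward {F : (J → ℂ) → ℂ} (hF : Adm F) :
    ∃ a : (J → ℕ × ℕ) → ℝ, (∀ p, 0 ≤ a p) ∧ HasSum a 1 ∧
      ∀ x : J → ℂ, (∀ j, ‖x j‖ ≤ 1) → HasSum (fun p => (a p : ℂ) * mon x p) (F x) := by
  obtain ⟨a, ha0, hasum, ha⟩ := exists_series hF
  have hbd : ∀ x : J → ℂ, (∀ j, ‖x j‖ ≤ 1) → ∀ p, ‖(a p : ℂ) * mon x p‖ ≤ a p := by
    intro x hx p
    rw [norm_mul, Complex.norm_real, Real.norm_of_nonneg (ha0 p)]
    exact mul_le_of_le_one_right (ha0 p) (norm_mon_le_one x hx p)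
  have hmain : ∀ x : J → ℂ, (∀ j, ‖x j‖ ≤ 1) →
      HasSum (fun p => (a p : ℂ) * mon x p) (F x) := by
    intro x hx
    choose μ hμ hμ1 hμ2 using fun j => exists_boundary (x j) (hx j)
    obtain ⟨ρ, hρ, hρ'⟩ := hF μ hμ
    have hμp : ∀ j, IsProbabilityMeasure (μ j) := fun j => (hμ j).1
    have c1 : Continuous (charFun ρ) := continuous_charFun
    have c2 : Continuous fun ξ : ℝ =>
        ∑' p, (a p : ℂ) * mon (fun j => charFun (μ j) ξ) p := by
      refine continuous_tsum (u := a) ?_ hasum ?_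
      · intro p
        have h1 : Continuous fun ξ : ℝ => (fun j => charFun (μ j) ξ) :=
          continuous_pi fun j => continuous_charFun
        exact continuous_const.mul ((continuous_mon p).comp h1)
      · intro p ξ
        exact hbd _ (fun j => norm_charFun_le_one ξ) p
    have heq : Set.EqOn (charFun ρ) (fun ξ : ℝ =>
        ∑' p, (a p : ℂ) * mon (fun j => charFun (μ j) ξ) p) (Set.Ioo 0 1) := by
      intro ξ hξ
      simp only
      rw [hρ', (ha _ ((pi_norm_lt_iff one_pos).2 fun j => hμ2 j ξ hξ)).tsum_eq]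
    have h1 := heq.closure c1 c2
    rw [closure_Ioo (by norm_num)] at h1
    have h2 := h1 (Set.right_mem_Icc.2 zero_le_one)
    simp only [hρ', hμ1] at h2
    have h3 : F x = ∑' p, (a p : ℂ) * mon x p := h2
    rw [h3]
    apply Summable.hasSum
    exact Summable.of_norm_bounded hasum (hbd x hx)
  refine ⟨a, ha0, ?_, hmain⟩
  have h1 := hmain (fun _ => 1) (by simp)
  rw [F_one hF] at h1
  have h2 : (fun p => (a p : ℂ) * mon (fun _ : J => (1 : ℂ)) p) = fun p => ((a p : ℝ) : ℂ) := by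
    funext p; simp [mon]
  rw [h2, ← Complex.ofReal_one] at h1
  exact Complex.hasSum_ofReal.1 h1

end

end Pool.Agent.Y844.CFN
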