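import Pool.Agent.Y844.CFN.Space

/-!
Functions of countably many variables acting on characteristic functions: the tail estimate.
-/

namespace Pool.Agent.Y844.CFN

open MeasureTheory Filter Topology
open scoped ComplexConjugate

noncomputable section

set_option linter.unusedSectionVars false

variable {J : Type}

/-- Working version of admissibility (finitely supported measures only), any index type. -/
def AdmI (F : (J → ℂ) → ℂ) : Prop :=
  ∀ μ : J → Measure ℝ, (∀ j, PF (μ j)) →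
    ∃ ρ : Measure ℝ, IsProbabilityMeasure ρ ∧
      ∀ ξ : ℝ, charFun ρ ξ = F (fun j => charFun (μ j) ξ)

lemma PF_dirac : PF (Measure.dirac (0 : ℝ)) := ⟨inferInstance, {0}, by
    rw [Measure.dirac_apply' _ (Finset.measurableSet _).compl]; simp⟩

lemma charFun_dirac_zero (ξ : ℝ) : charFun (Measure.dirac (0 : ℝ)) ξ = 1 := by simp

lemma F_oneI {F : (J → ℂ) → ℂ} (hF : AdmI F) : F (fun _ => 1) = 1 := by
  obtain ⟨ρ, hρ, hρ'⟩ := hF (fun _ => Measure.dirac 0) (fun _ => PF_dirac)
  have := hρ' 0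
  simpa using this.symm

/-- characteristic functions with finitely many frequencies -/
def TP (f : ℝ → ℂ) : Prop := ∃ (ι : Type) (_ : Fintype ι) (p l : ι → ℝ), (∀ i, 0 ≤ p i) ∧
  ∑ i, p i = 1 ∧ ∀ ξ, f ξ = ∑ i, (p i : ℂ) * Complex.exp ((ξ * l i : ℝ) * Complex.I)

lemma TP.measure {f : ℝ → ℂ} (h : TP f) : ∃ μ : Measure ℝ, PF μ ∧ ∀ ξ : ℝ, charFun μ ξ = f ξ := by
  obtain ⟨ι, _, p, l, h1, h2, h3⟩ := h
  obtain ⟨μ, hμ, hμ'⟩ := exists_finite_measure p h1 h2 l
  exact ⟨μ, hμ, fun ξ => by rw [hμ', h3]⟩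

lemma TP.one : TP (fun _ => 1) := ⟨Unit, inferInstance, fun _ => 1, fun _ => 0, by simp, by simp,
  by simp⟩

lemma TP.mul_cos {f : ℝ → ℂ} (h : TP f) (a : ℝ) : TP (fun ξ => f ξ * (Real.cos (a * ξ) : ℂ)) := by
  obtain ⟨ι, _, p, l, h1, h2, h3⟩ := h
  refine ⟨ι ⊕ ι, inferInstance, Sum.elim (fun i => p i / 2) (fun i => p i / 2),
    Sum.elim (fun i => l i + a) (fun i => l i - a), ?_, ?_, ?_⟩
  · rintro (i | i)
    · exact div_nonneg (h1 i) (by norm_num)
    · exact div_nonneg (h1 i) (by norm_num)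
  · rw [Fintype.sum_sum_type]
    simp only [Sum.elim_inl, Sum.elim_inr]
    rw [← Finset.sum_div, h2]; norm_num
  · intro ξ
    rw [Fintype.sum_sum_type]
    simp only [Sum.elim_inl, Sum.elim_inr]
    rw [h3, Finset.sum_mul, ← Finset.sum_add_distrib]
    apply Finset.sum_congr rfl
    intro i _
    have e1 : (((ξ * (l i + a) : ℝ) : ℂ) * Complex.I) =
        ((ξ * l i : ℝ) : ℂ) * Complex.I + (a * ξ : ℝ) * Complex.I := by push_cast; ring
    have e2 : (((ξ * (l i - a) : ℝ) : ℂ) * Complex.I) =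
        ((ξ * l i : ℝ) : ℂ) * Complex.I + (-((a * ξ : ℝ) : ℂ)) * Complex.I := by push_cast; ring
    rw [e1, e2, Complex.exp_add, Complex.exp_add, Complex.ofReal_cos, Complex.cos]
    push_cast
    ring

lemma TP.cosprod (x : ℕ → ℝ) (m : ℕ) :
    TP (fun ξ => ((∏ M ∈ Finset.range m, Real.cos (x M * ξ) : ℝ) : ℂ)) := by
  induction m with
  | zero => simpa using TP.one
  | succ m ih =>
    have := ih.mul_cos (x m)
    refine (congrArg TP ?_).mp this
    funext ξ
    rw [Finset.prod_range_succ]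
    push_cast
    rfl

/-- the two-point inequality -/
lemma two_point {F : (J → ℂ) → ℂ} (hF : AdmI F) (μ : J → Measure ℝ) (hμ : ∀ j, PF (μ j))
    (s t : ℝ) : ‖F (fun j => charFun (μ j) s) - F (fun j => charFun (μ j) t)‖ ^ 2 ≤
      2 * (1 - (F (fun j => charFun (μ j) (s - t))).re) := by
  obtain ⟨ρ, hρ, hρ'⟩ := hF μ hμ
  rw [← hρ', ← hρ', ← hρ']
  exact charFun_ineq ρ s t

/-- a finitely supported measure with `φ(1) = v` and `φ(1/2) = 0` -/
lemma exists_half (v : ℂ) (hv : ‖v‖ ≤ 1) :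
    ∃ μ : Measure ℝ, PF μ ∧ charFun μ (1 : ℝ) = v ∧ charFun μ (1 / 2 : ℝ) = 0 := by
  set r : ℝ := ‖v‖ with hr
  have hr0 : 0 ≤ r := norm_nonneg _
  set α : ℝ := v.arg with hα
  obtain ⟨μ, hμ, hμ'⟩ := exists_finite_measure (ι := Fin 4)
    ![(1 + r) / 4, (1 + r) / 4, (1 - r) / 4, (1 - r) / 4]
    (by intro i
        fin_cases i
        · exact div_nonneg (by linarith) (by norm_num)
        · exact div_nonneg (by linarith) (by norm_num)
        · exact div_nonneg (by linarith) (by norm_num)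
        · exact div_nonneg (by linarith) (by norm_num))
    (by simp [Fin.sum_univ_four]; ring)
    ![α, α + 2 * Real.pi, α + Real.pi, α + 3 * Real.pi]
  refine ⟨μ, hμ, ?_, ?_⟩
  · rw [hμ', Fin.sum_univ_four]
    simp only [Matrix.cons_val]
    have h3 := Complex.norm_mul_exp_arg_mul_I v
    rw [← hr, ← hα] at h3
    have e1 : Complex.exp (((1 * (α + 2 * Real.pi) : ℝ) : ℂ) * Complex.I) =
        Complex.exp ((α : ℂ) * Complex.I) := by
      have : (((1 * (α + 2 * Real.pi) : ℝ) : ℂ) * Complex.I) =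
        (α : ℂ) * Complex.I + 2 * Real.pi * Complex.I := by push_cast; ring
      rw [this, Complex.exp_add, Complex.exp_two_pi_mul_I, mul_one]
    have e2 : Complex.exp (((1 * (α + Real.pi) : ℝ) : ℂ) * Complex.I) =
        -Complex.exp ((α : ℂ) * Complex.I) := by
      have : (((1 * (α + Real.pi) : ℝ) : ℂ) * Complex.I) =
        (α : ℂ) * Complex.I + Real.pi * Complex.I := by push_cast; ring
      rw [this, Complex.exp_add, Complex.exp_pi_mul_I]; ring
    have e3 : Complex.exp (((1 * (α + 3 * Real.pi) : ℝ) : ℂ) * Complex.I) =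
        -Complex.exp ((α : ℂ) * Complex.I) := by
      have : (((1 * (α + 3 * Real.pi) : ℝ) : ℂ) * Complex.I) =
        (α : ℂ) * Complex.I + Real.pi * Complex.I + 2 * Real.pi * Complex.I := by push_cast; ring
      rw [this, Complex.exp_add, Complex.exp_two_pi_mul_I, Complex.exp_add,
        Complex.exp_pi_mul_I]; ring
    have e0 : Complex.exp (((1 * α : ℝ) : ℂ) * Complex.I) =
        Complex.exp ((α : ℂ) * Complex.I) := by rw [one_mul]
    rw [e0, e1, e2, e3, ← h3]
    push_cast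
    ring
  · rw [hμ', Fin.sum_univ_four]
    simp only [Matrix.cons_val]
    have e1 : Complex.exp (((1 / 2 * (α + 2 * Real.pi) : ℝ) : ℂ) * Complex.I) =
        -Complex.exp (((1 / 2 * α : ℝ) : ℂ) * Complex.I) := by
      have : (((1 / 2 * (α + 2 * Real.pi) : ℝ) : ℂ) * Complex.I) =
        ((1 / 2 * α : ℝ) : ℂ) * Complex.I + Real.pi * Complex.I := by push_cast; ring
      rw [this, Complex.exp_add, Complex.exp_pi_mul_I]; ring
    have e2 : Complex.exp (((1 / 2 * (α + 3 * Real.pi) : ℝ) : ℂ) * Complex.I) =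
        -Complex.exp (((1 / 2 * (α + Real.pi) : ℝ) : ℂ) * Complex.I) := by
      have : (((1 / 2 * (α + 3 * Real.pi) : ℝ) : ℂ) * Complex.I) =
        ((1 / 2 * (α + Real.pi) : ℝ) : ℂ) * Complex.I + Real.pi * Complex.I := by push_cast; ring
      rw [this, Complex.exp_add, Complex.exp_pi_mul_I]; ring
    rw [e1, e2]
    ring

/-- change of the tail: everything is controlled by the value at `0` in the tail -/
lemma tail_bound {F : (J → ℂ) → ℂ} (hF : AdmI F) (P : J → Prop) [DecidablePred P]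
    (w : J → ℂ) (hw : ∀ j, ‖w j‖ ≤ 1) :
    ‖F (fun j => if P j then 1 else w j) - 1‖ ^ 2 ≤
      8 * ‖F (fun j => if P j then 1 else 0) - 1‖ := by
  choose ν hν hν1 hν2 using fun j => exists_half (w j) (hw j)
  set μ : J → Measure ℝ := fun j => if P j then Measure.dirac 0 else ν j with hμd
  have hμ : ∀ j, PF (μ j) := by
    intro j
    simp only [hμd]
    split_ifs
    · exact PF_dirac
    · exact hν j
  have v1 : (fun j => charFun (μ j) (1 : ℝ)) = fun j => if P j then 1 else w j := by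
    funext j
    simp only [hμd]
    split_ifs
    · exact charFun_dirac_zero _
    · exact hν1 j
  have v2 : (fun j => charFun (μ j) (1 / 2 : ℝ)) = fun j => if P j then 1 else 0 := by
    funext j
    simp only [hμd]
    split_ifs
    · exact charFun_dirac_zero _
    · exact hν2 j
  have v0 : (fun j => charFun (μ j) (0 : ℝ)) = fun _ => 1 := by
    funext j
    have := (hμ j).1
    simp
  have h1 := two_point hF μ hμ 1 (1 / 2)
  have h2 := two_point hF μ hμ (1 / 2) 0
  have e1 : (1 : ℝ) - 1 / 2 = 1 / 2 := by norm_num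
  have e2 : (1 / 2 : ℝ) - 0 = 1 / 2 := by norm_num
  rw [e1, v1, v2] at h1
  rw [e2, v2, v0, F_oneI hF] at h2
  set a := F (fun j => if P j then 1 else w j)
  set b := F (fun j => if P j then 1 else 0)
  have h3 : 1 - b.re ≤ ‖b - 1‖ := by
    have := Complex.re_le_norm (1 - b)
    rw [norm_sub_rev] at this
    simpa using this
  have h4 : ‖a - 1‖ ≤ ‖a - b‖ + ‖b - 1‖ := by
    have := norm_add_le (a - b) (b - 1)
    rwa [sub_add_sub_cancel] at this
  have h5 : 0 ≤ ‖a - 1‖ := norm_nonneg _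
  have h6 : ‖a - 1‖ ^ 2 ≤ (‖a - b‖ + ‖b - 1‖) ^ 2 := pow_le_pow_left₀ h5 h4 2
  nlinarith [sq_nonneg (‖a - b‖ - ‖b - 1‖)]

/-- a finitely supported measure with `φ(5) = φ(2) = z` and `φ(3) = 1` -/
lemma exists_third (z : ℝ) (h0 : 0 ≤ z) (h1 : z ≤ 1) :
    ∃ μ : Measure ℝ, PF μ ∧ charFun μ (5 : ℝ) = z ∧ charFun μ (3 : ℝ) = 1 ∧
      charFun μ (2 : ℝ) = z := by
  obtain ⟨μ, hμ, hμ'⟩ := exists_finite_measure (ι := Fin 3)
    ![(1 + 2 * z) / 3, (1 - z) / 3, (1 - z) / 3]
    (by intro i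
        fin_cases i
        · exact div_nonneg (by linarith) (by norm_num)
        · exact div_nonneg (by linarith) (by norm_num)
        · exact div_nonneg (by linarith) (by norm_num))
    (by simp [Fin.sum_univ_three]; ring)
    ![0, 2 * Real.pi / 3, -(2 * Real.pi / 3)]
  have key : ∀ ξ : ℝ, charFun μ ξ =
      (((1 + 2 * z) / 3 + 2 * (1 - z) / 3 * Real.cos (2 * Real.pi / 3 * ξ) : ℝ) : ℂ) := by
    intro ξ
    rw [hμ', Fin.sum_univ_three]
    simp only [Matrix.cons_val]
    push_cast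
    rw [Complex.cos]
    have e0 : ((ξ : ℂ) * 0 * Complex.I) = 0 := by ring
    have e1 : ((ξ : ℂ) * (2 * Real.pi / 3) * Complex.I) = 2 * Real.pi / 3 * ξ * Complex.I := by
      ring
    have e2 : ((ξ : ℂ) * -(2 * Real.pi / 3) * Complex.I) = -(2 * Real.pi / 3 * ξ) * Complex.I := by
      ring
    rw [e0, e1, e2, Complex.exp_zero]
    ring
  have c1 : Real.cos (2 * Real.pi / 3 * 3) = 1 := by
    have : 2 * Real.pi / 3 * 3 = 2 * Real.pi := by ring
    rw [this, Real.cos_two_pi]
  have c0 : Real.cos (Real.pi / 3) = 1 / 2 := Real.cos_pi_div_three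
  have c2 : Real.cos (2 * Real.pi / 3 * 2) = -(1 / 2) := by
    have : 2 * Real.pi / 3 * 2 = Real.pi / 3 + Real.pi := by ring
    rw [this, Real.cos_add_pi, c0]
  have c5 : Real.cos (2 * Real.pi / 3 * 5) = -(1 / 2) := by
    have : 2 * Real.pi / 3 * 5 = Real.pi / 3 + Real.pi + 2 * Real.pi := by ring
    rw [this, Real.cos_add_two_pi, Real.cos_add_pi, c0]
  refine ⟨μ, hμ, ?_, ?_, ?_⟩
  · rw [key, c5]; congr 1; ring
  · rw [key, c1, ← Complex.ofReal_one]; congr 1; ring
  · rw [key, c2]; congr 1; ring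

/-- a finitely supported measure with `φ(5) = φ(3) = 0` and `φ(2) = 1` -/
lemma exists_chi : ∃ μ : Measure ℝ, PF μ ∧ charFun μ (5 : ℝ) = 0 ∧ charFun μ (3 : ℝ) = 0 ∧
      charFun μ (2 : ℝ) = 1 := by
  obtain ⟨μ, hμ, hμ'⟩ := exists_finite_measure (ι := Fin 2)
    ![1 / 2, 1 / 2]
    (by intro i
        fin_cases i
        · exact div_nonneg (by linarith) (by norm_num)
        · exact div_nonneg (by linarith) (by norm_num))
    (by simp [Fin.sum_univ_two]; norm_num)
    ![0, Real.pi]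
  have key : ∀ ξ : ℝ, charFun μ ξ = (1 + Complex.exp (ξ * Real.pi * Complex.I)) / 2 := by
    intro ξ
    rw [hμ', Fin.sum_univ_two]
    simp only [Matrix.cons_val]
    push_cast
    have e0 : ((ξ : ℂ) * 0 * Complex.I) = 0 := by ring
    rw [e0, Complex.exp_zero]
    ring
  have e2 : Complex.exp (((2 : ℝ) : ℂ) * Real.pi * Complex.I) = 1 := by
    have := Complex.exp_two_pi_mul_I
    push_cast
    exact this
  have e3 : Complex.exp (((3 : ℝ) : ℂ) * Real.pi * Complex.I) = -1 := by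
    have : (((3 : ℝ) : ℂ) * Real.pi * Complex.I) =
      2 * Real.pi * Complex.I + Real.pi * Complex.I := by push_cast; ring
    rw [this, Complex.exp_add, Complex.exp_two_pi_mul_I, Complex.exp_pi_mul_I]; ring
  have e5 : Complex.exp (((5 : ℝ) : ℂ) * Real.pi * Complex.I) = -1 := by
    have : (((5 : ℝ) : ℂ) * Real.pi * Complex.I) =
      2 * Real.pi * Complex.I + (2 * Real.pi * Complex.I + Real.pi * Complex.I) := by
        push_cast; ring
    rw [this, Complex.exp_add, Complex.exp_add, Complex.exp_two_pi_mul_I,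
      Complex.exp_pi_mul_I]; ring
  refine ⟨μ, hμ, ?_, ?_, ?_⟩
  · rw [key, e5]; ring
  · rw [key, e3]; ring
  · rw [key, e2]; ring

/-- change of the first coordinates in front of the tail `0` -/
lemma first_change {F : (J → ℂ) → ℂ} (hF : AdmI F) (P : J → Prop) [DecidablePred P]
    (z : J → ℝ) (hz0 : ∀ j, P j → 0 ≤ z j) (hz1 : ∀ j, P j → z j ≤ 1) :
    ‖F (fun j => if P j then (z j : ℂ) else 0) - F (fun j => if P j then 1 else 0)‖ ^ 2 ≤
      2 * (1 - (F (fun j => if P j then (z j : ℂ) else 1)).re) := by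
  obtain ⟨κ, hκ, hκ5, hκ3, hκ2⟩ := exists_chi
  have hex : ∀ j, ∃ μ : Measure ℝ, PF μ ∧
      charFun μ (5 : ℝ) = (if P j then (z j : ℂ) else 0) ∧
      charFun μ (3 : ℝ) = (if P j then 1 else 0) ∧
      charFun μ (2 : ℝ) = (if P j then (z j : ℂ) else 1) := by
    intro j
    by_cases hj : P j
    · simp only [if_pos hj]
      exact exists_third (z j) (hz0 j hj) (hz1 j hj)
    · simp only [if_neg hj]
      exact ⟨κ, hκ, hκ5, hκ3, hκ2⟩
  choose μ hμ h5 h3 h2 using hex
  have h1 := two_point hF μ hμ 5 3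
  have e1 : (5 : ℝ) - 3 = 2 := by norm_num
  rw [e1] at h1
  simp only [h5, h3, h2] at h1
  exact h1

end

end Pool.Agent.Y844.CFN
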