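import Pool.Agent.Y844.CFN.Inf1

/-!
Functions of countably many variables acting on characteristic functions: late coordinates do
not matter, uniformly.
-/

namespace Pool.Agent.Y844.CFN

open MeasureTheory Filter Topology
open scoped ComplexConjugate

noncomputable section

set_option linter.unusedSectionVars false

variable {J : Type}

/-- products of cosines -/
def cp (x : ℕ → ℝ) (m : ℕ) (ξ : ℝ) : ℝ := ∏ M ∈ Finset.range m, Real.cos (Real.pi / (2 * x M) * ξ)

lemma cp_measure (x : ℕ → ℝ) (m : ℕ) :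
    ∃ μ : Measure ℝ, PF μ ∧ ∀ ξ : ℝ, charFun μ ξ = (cp x m ξ : ℂ) :=
  (TP.cosprod (fun M => Real.pi / (2 * x M)) m).measure

lemma cp_eq_zero (x : ℕ → ℝ) {N m : ℕ} (h : N < m) (hx : 0 < x N) : cp x m (x N) = 0 := by
  refine Finset.prod_eq_zero (Finset.mem_range.2 h) ?_
  have : Real.pi / (2 * x N) * x N = Real.pi / 2 := by field_simp
  rw [this, Real.cos_pi_div_two]

lemma cp_mem (x : ℕ → ℝ) {m : ℕ} {y : ℝ} (hy : 0 < y) (hx : ∀ M < m, y ≤ x M) :
    0 ≤ cp x m y ∧ cp x m y ≤ 1 := by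
  have h1 : ∀ M ∈ Finset.range m, 0 ≤ Real.cos (Real.pi / (2 * x M) * y) := by
    intro M hM
    have h2 := hx M (Finset.mem_range.1 hM)
    have h3 : 0 < x M := lt_of_lt_of_le hy h2
    have hpi := Real.pi_pos
    apply Real.cos_nonneg_of_mem_Icc
    constructor
    · have : 0 ≤ Real.pi / (2 * x M) * y := by positivity
      linarith
    · have : Real.pi / (2 * x M) * y ≤ Real.pi / (2 * x M) * x M :=
        mul_le_mul_of_nonneg_left h2 (by positivity)
      have e : Real.pi / (2 * x M) * x M = Real.pi / 2 := by field_simp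
      linarith
  exact ⟨Finset.prod_nonneg h1, Finset.prod_le_one h1 fun M _ => Real.cos_le_one _⟩

lemma cp_congr (x x' : ℕ → ℝ) {m : ℕ} (h : ∀ M < m, x M = x' M) (y : ℝ) :
    cp x m y = cp x' m y := by
  unfold cp
  apply Finset.prod_congr rfl
  intro M hM
  rw [h M (Finset.mem_range.1 hM)]

lemma charFun_tendsto (ρ : Measure ℝ) [IsProbabilityMeasure ρ] :
    Tendsto (fun ξ : ℝ => charFun ρ ξ) (𝓝 0) (𝓝 1) := by
  have h1 : Continuous (charFun ρ) := continuous_charFun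
  have h2 := h1.tendsto 0
  rw [charFun_zero] at h2
  simp only [probReal_univ, Complex.ofReal_one] at h2
  exact h2

lemma small_step {F : (J → ℂ) → ℂ} (hF : AdmI F) (e : J → ℕ) (δ : ℝ) (hδ : 0 < δ) (N : ℕ)
    (x : ℕ → ℝ) (hx : ∀ M, 0 < x M) :
    ∃ y : ℝ, 0 < y ∧ (∀ M < N, y ≤ x M) ∧ y ≤ 1 / ((N : ℝ) + 1) ∧
      1 - (F (fun j => if e j ≤ N then (cp x (e j) y : ℂ) else 1)).re ≤ δ := by
  choose ν hν hν' using cp_measure x
  set μ : J → Measure ℝ := fun j => if e j ≤ N then ν (e j) else Measure.dirac 0 with hμd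
  have hμ : ∀ j, PF (μ j) := by
    intro j
    simp only [hμd]
    split_ifs
    · exact hν _
    · exact PF_dirac
  have v : ∀ y : ℝ, (fun j => charFun (μ j) y) =
      fun j => if e j ≤ N then (cp x (e j) y : ℂ) else 1 := by
    intro y
    funext j
    simp only [hμd]
    split_ifs
    · exact hν' _ _
    · exact charFun_dirac_zero _
  obtain ⟨ρ, hρ, hρ'⟩ := hF μ hμ
  have hcont : Tendsto (fun ξ : ℝ => charFun ρ ξ) (𝓝[>] 0) (𝓝 1) :=
    (charFun_tendsto ρ).mono_left nhdsWithin_le_nhds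
  have ev1 : ∀ᶠ y : ℝ in 𝓝[>] 0, ‖charFun ρ y - 1‖ < δ :=
    (tendsto_iff_norm_sub_tendsto_zero.1 hcont).eventually (gt_mem_nhds hδ)
  have ev2 : ∀ᶠ y : ℝ in 𝓝[>] 0, ∀ M ∈ Finset.range N, y < x M := by
    rw [Filter.eventually_all_finset]
    intro M _
    exact (gt_mem_nhds (hx M)).filter_mono nhdsWithin_le_nhds
  have ev3 : ∀ᶠ y : ℝ in 𝓝[>] 0, y < 1 / ((N : ℝ) + 1) :=
    (gt_mem_nhds (by positivity)).filter_mono nhdsWithin_le_nhds
  have ev4 : ∀ᶠ y : ℝ in 𝓝[>] 0, 0 < y := self_mem_nhdsWithin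
  obtain ⟨y, h1, h2, h3, h4⟩ := (ev1.and (ev2.and (ev3.and ev4))).exists
  refine ⟨y, h4, fun M hM => (h2 M (Finset.mem_range.2 hM)).le, h3.le, ?_⟩
  rw [hρ', v] at h1
  set b := F (fun j => if e j ≤ N then (cp x (e j) y : ℂ) else 1)
  have h5 : 1 - b.re ≤ ‖b - 1‖ := by
    have := Complex.re_le_norm (1 - b)
    rw [norm_sub_rev] at this
    simpa using this
  linarith

lemma exists_seq {F : (J → ℂ) → ℂ} (hF : AdmI F) (e : J → ℕ) (δ : ℝ) (hδ : 0 < δ) :
    ∃ x : ℕ → ℝ, (∀ N, 0 < x N) ∧ (∀ N, ∀ M < N, x N ≤ x M) ∧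
      (∀ N : ℕ, x N ≤ 1 / ((N : ℝ) + 1)) ∧
      ∀ N, 1 - (F (fun j => if e j ≤ N then (cp x (e j) (x N) : ℂ) else 1)).re ≤ δ := by
  choose c hc using small_step hF e δ hδ
  let X : ℕ → {x : ℕ → ℝ // ∀ M, 0 < x M} := fun n => Nat.rec ⟨fun _ => 1, fun _ => one_pos⟩
    (fun N Y => ⟨Function.update Y.1 N (c N Y.1 Y.2), by
      intro M
      by_cases h : M = N
      · subst h; rw [Function.update_self]; exact (hc M Y.1 Y.2).1
      · rw [Function.update_of_ne h]; exact Y.2 M⟩) n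
  have hstep : ∀ N, (X (N + 1)).1 = Function.update (X N).1 N (c N (X N).1 (X N).2) :=
    fun N => rfl
  set x : ℕ → ℝ := fun N => c N (X N).1 (X N).2 with hx
  have hval : ∀ N M, M < N → (X N).1 M = x M := by
    intro N
    induction N with
    | zero => intro M hM; omega
    | succ N ih =>
      intro M hM
      rw [hstep]
      by_cases h : M = N
      · subst h; rw [Function.update_self]
      · rw [Function.update_of_ne h]; exact ih M (by omega)
  refine ⟨x, fun N => (hc N (X N).1 (X N).2).1, ?_, fun N => (hc N (X N).1 (X N).2).2.2.1, ?_⟩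
  · intro N M hM
    have := (hc N (X N).1 (X N).2).2.1 M hM
    rwa [hval N M hM] at this
  · intro N
    have h1 := (hc N (X N).1 (X N).2).2.2.2
    have h2 : (fun j => if e j ≤ N then (cp (X N).1 (e j) (c N (X N).1 (X N).2) : ℂ) else 1) =
        fun j => if e j ≤ N then (cp x (e j) (x N) : ℂ) else 1 := by
      funext j
      split_ifs with h
      · rw [cp_congr (X N).1 x (fun M hM => hval N M (by omega))]
      · rfl
    rwa [h2] at h1

lemma tail_zero {F : (J → ℂ) → ℂ} (hF : AdmI F) (e : J → ℕ) (ε : ℝ) (hε : 0 < ε) :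
    ∃ N, ‖F (fun j => if e j ≤ N then 1 else 0) - 1‖ ≤ ε := by
  obtain ⟨x, hx0, hx1, hx2, hx3⟩ := exists_seq hF e (ε ^ 2 / 8) (by positivity)
  choose μ hμ hμ' using fun j => cp_measure x (e j)
  obtain ⟨ρ, hρ, hρ'⟩ := hF μ hμ
  have hlim : Tendsto x atTop (𝓝 0) :=
    squeeze_zero (fun N => (hx0 N).le) hx2 tendsto_one_div_add_atTop_nhds_zero_nat
  have h1 := (charFun_tendsto ρ).comp hlim
  have ev1 : ∀ᶠ N : ℕ in atTop, ‖charFun ρ (x N) - 1‖ < ε / 2 :=
    (tendsto_iff_norm_sub_tendsto_zero.1 h1).eventually (gt_mem_nhds (by positivity))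
  obtain ⟨N, hN⟩ := ev1.exists
  refine ⟨N, ?_⟩
  have v : (fun j => charFun (μ j) (x N)) =
      fun j => if e j ≤ N then ((cp x (e j) (x N) : ℝ) : ℂ) else 0 := by
    funext j
    rw [hμ']
    split_ifs with h
    · rfl
    · rw [cp_eq_zero x (by omega) (hx0 N)]; simp
  rw [hρ', v] at hN
  have h2 := first_change hF (fun j => e j ≤ N) (fun j => cp x (e j) (x N))
    (fun j hj => (cp_mem x (hx0 N) (fun M hM => hx1 N M (by omega))).1)
    (fun j hj => (cp_mem x (hx0 N) (fun M hM => hx1 N M (by omega))).2)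
  have h3 := hx3 N
  set a := F (fun j => if e j ≤ N then ((cp x (e j) (x N) : ℝ) : ℂ) else 0)
  set b := F (fun j => if e j ≤ N then 1 else 0)
  have h4 : ‖a - b‖ ^ 2 ≤ (ε / 2) ^ 2 := by nlinarith
  have h5 : ‖a - b‖ ≤ ε / 2 := le_of_sq_le_sq h4 (by positivity)
  have h6 : ‖b - 1‖ ≤ ‖a - b‖ + ‖a - 1‖ := by
    have := norm_add_le (b - a) (a - 1)
    rw [sub_add_sub_cancel, norm_sub_rev b a] at this
    exact this
  linarith

/-- late coordinates do not matter, uniformly -/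
theorem tail_uniform {F : (J → ℂ) → ℂ} (hF : AdmI F) (e : J → ℕ) (ε : ℝ) (hε : 0 < ε) :
    ∃ N, ∀ w : J → ℂ, (∀ j, ‖w j‖ ≤ 1) →
      ‖F (fun j => if e j ≤ N then 1 else w j) - 1‖ ≤ ε := by
  obtain ⟨N, hN⟩ := tail_zero hF e (ε ^ 2 / 8) (by positivity)
  refine ⟨N, fun w hw => ?_⟩
  have h := tail_bound hF (fun j => e j ≤ N) w hw
  exact le_of_sq_le_sq (by linarith) hε.le

end

end Pool.Agent.Y844.CFN
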