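import Pool.Agent.Y844.CFN.Inf2

/-!
Functions of countably many variables acting on characteristic functions: cutting off the late
coordinates, and monomials with finitely supported exponents.
-/

namespace Pool.Agent.Y844.CFN

open MeasureTheory Filter Topology
open scoped ComplexConjugate

noncomputable section

set_option linter.unusedSectionVars false

variable {J : Type}

/-- points of a smaller disc are averages of roots of unity of any large order -/
lemma exists_rep' (R : ℝ) (hR0 : 0 ≤ R) (hR : R < 1) :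
    ∃ Q0 : ℕ, ∀ Q : ℕ, Q0 ≤ Q → Q ≠ 0 → ∃ (κ : Type) (_ : Fintype κ) (K : κ → ℤ), ∀ v : ℂ, ‖v‖ ≤ R →
      ∃ p : κ → ℝ, (∀ g, 0 ≤ p g) ∧ ∑ g, p g = 1 ∧
        ∑ g, (p g : ℂ) * Complex.exp (((2 * Real.pi * K g / Q : ℝ) : ℂ) * Complex.I) = v := by
  obtain ⟨h, hh⟩ : ∃ h : ℕ, 4 * R ^ (h + 1 + 1) ≤ 1 - R ^ 2 := by
    have h1 : Tendsto (fun n : ℕ => 4 * R ^ n) atTop (𝓝 (4 * 0)) :=
      (tendsto_pow_atTop_nhds_zero_of_lt_one hR0 hR).const_mul 4
    rw [mul_zero] at h1
    have h2 : (0 : ℝ) < 1 - R ^ 2 := by nlinarith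
    obtain ⟨n, hn⟩ := (h1.eventually (gt_mem_nhds h2)).exists_forall_of_atTop
    exact ⟨n, (hn (n + 1 + 1) (by omega)).le⟩
  refine ⟨2 * (h + 1) + 1, fun Q hQ0 hQ => ?_⟩
  have : NeZero Q := ⟨hQ⟩
  set M : Unit → ℤ := fun _ => 1 with hMd
  have hM : Dissoc Q M (h + 1) := by
    intro k hk k' hk' hkk
    rw [mem_SS] at hk hk'
    have e1 : ∀ k : Unit → ℤ, freq Q M k = ((k () : ℤ) : ZMod Q) := by
      intro k
      simp [freq, hMd]
    rw [e1, e1, ZMod.intCast_eq_intCast_iff_dvd_sub] at hkk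
    funext i
    have a1 := hk ()
    have a2 := hk' ()
    have h7 : |k' () - k ()| < (Q : ℤ) := by
      calc |k' () - k ()| ≤ |k' ()| + |k ()| := abs_sub _ _
        _ ≤ ((h + 1 : ℕ) : ℤ) + ((h + 1 : ℕ) : ℤ) := by linarith
        _ < _ := by omega
    have h8 := Int.eq_zero_of_abs_lt_dvd hkk h7
    linarith
  refine ⟨ZMod Q, inferInstance, fun g => M () * (g.val : ℤ), ?_⟩
  intro v hv
  obtain ⟨w, hw0, hw⟩ := EE_weights (Q := Q) (M := M) (h := h + 1) (fun _ : Unit => v) R hR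
    (fun _ => hv) hh
  refine ⟨w, hw0, ?_, ?_⟩
  · have := EE_one hM (fun _ : Unit => v)
    rw [hw] at this
    simp only [mul_one] at this
    exact_mod_cast this
  · have := EE_zz hM (by omega) (fun _ : Unit => v) ()
    rw [hw] at this
    rw [← this]
    apply Finset.sum_congr rfl
    intro g _
    congr 1
    have e : (M () : ZMod Q) * g = ((M () * (g.val : ℤ) : ℤ) : ZMod Q) := by
      push_cast; rw [ZMod.natCast_zmod_val]
    rw [zz, e, ZMod.stdAddChar_coe]
    push_cast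
    congr 1
    ring

lemma rep_measure {A : ℕ} (hA : A ≠ 0) {κ : Type} [Fintype κ] {K : κ → ℤ} {p : κ → ℝ}
    (hp0 : ∀ g, 0 ≤ p g) (hp1 : ∑ g, p g = 1) {v : ℂ}
    (hv : ∑ g, (p g : ℂ) * Complex.exp (((2 * Real.pi * K g / A : ℝ) : ℂ) * Complex.I) = v)
    (σ : ℤ) :
    ∃ μ : Measure ℝ, PF μ ∧ (∀ m c : ℤ, σ * m = 1 + c * A → charFun μ (m : ℝ) = v) ∧
      (∀ m c : ℤ, σ * m = c * A → charFun μ (m : ℝ) = 1) := by
  obtain ⟨μ, hμ, hμ'⟩ := exists_finite_measure p hp0 hp1 (fun g => 2 * Real.pi * σ * K g / A)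
  have hA' : (A : ℝ) ≠ 0 := by exact_mod_cast hA
  refine ⟨μ, hμ, ?_, ?_⟩
  · intro m c hmc
    have hmc' : (σ : ℝ) * m = 1 + c * A := by exact_mod_cast hmc
    rw [hμ', ← hv]
    apply Finset.sum_congr rfl
    intro g _
    congr 1
    have e : (((m : ℝ) * (2 * Real.pi * σ * K g / A) : ℝ) : ℂ) * Complex.I =
        ((2 * Real.pi * K g / A : ℝ) : ℂ) * Complex.I +
          ((2 * Real.pi * (c * K g : ℤ) : ℝ) : ℂ) * Complex.I := by
      rw [← add_mul, ← Complex.ofReal_add]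
      congr 2
      have : (m : ℝ) * (2 * Real.pi * σ * K g / A) = 2 * Real.pi * K g * (σ * m) / A := by ring
      rw [this, hmc']
      push_cast
      field_simp
    rw [e, Complex.exp_add, exp_int, mul_one]
  · intro m c hmc
    have hmc' : (σ : ℝ) * m = c * A := by exact_mod_cast hmc
    rw [hμ']
    have : ∀ g, (p g : ℂ) *
        Complex.exp ((((m : ℝ) * (2 * Real.pi * σ * K g / A) : ℝ) : ℂ) * Complex.I) = (p g : ℂ) := by
      intro g
      have e : (m : ℝ) * (2 * Real.pi * σ * K g / A) = 2 * Real.pi * (c * K g : ℤ) := by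
        have : (m : ℝ) * (2 * Real.pi * σ * K g / A) = 2 * Real.pi * K g * (σ * m) / A := by ring
        rw [this, hmc']
        push_cast
        field_simp
      rw [e, exp_int, mul_one]
    rw [Finset.sum_congr rfl fun g _ => this g]
    exact_mod_cast hp1

/-- two types of measures with prescribed values at three integers -/
lemma exists_types (R : ℝ) (hR0 : 0 ≤ R) (hR : R < 1) :
    ∃ Q : ℤ, ∀ v : ℂ, ‖v‖ ≤ R →
      (∃ μ : Measure ℝ, PF μ ∧ charFun μ ((2 * Q + 1 : ℤ) : ℝ) = v ∧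
        charFun μ ((Q + 1 : ℤ) : ℝ) = v ∧ charFun μ (Q : ℝ) = 1) ∧
      (∃ μ : Measure ℝ, PF μ ∧ charFun μ ((2 * Q + 1 : ℤ) : ℝ) = v ∧
        charFun μ ((Q + 1 : ℤ) : ℝ) = 1 ∧ charFun μ (Q : ℝ) = v) := by
  obtain ⟨Q0, hQ0⟩ := exists_rep' R hR0 hR
  obtain ⟨κ, _, K, hK⟩ := hQ0 (Q0 + 1) (by omega) (by omega)
  obtain ⟨κ', _, K', hK'⟩ := hQ0 (Q0 + 2) (by omega) (by omega)
  refine ⟨((Q0 + 1 : ℕ) : ℤ), fun v hv => ⟨?_, ?_⟩⟩
  · obtain ⟨p, hp0, hp1, hp⟩ := hK v hv
    obtain ⟨μ, hμ, h1, h2⟩ := rep_measure (by omega) hp0 hp1 hp 1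
    exact ⟨μ, hμ, h1 _ 2 (by ring), h1 _ 1 (by ring), h2 _ 1 (by ring)⟩
  · obtain ⟨p, hp0, hp1, hp⟩ := hK' v hv
    obtain ⟨μ, hμ, h1, h2⟩ := rep_measure (by omega) hp0 hp1 hp (-1)
    exact ⟨μ, hμ, h1 _ (-2) (by push_cast; ring), h2 _ (-1) (by push_cast; ring),
      h1 _ (-1) (by push_cast; ring)⟩

/-- cutting off coordinates -/
lemma cut {F : (J → ℂ) → ℂ} (hF : AdmI F) (P : J → Prop) [DecidablePred P] (z : J → ℂ)
    (R : ℝ) (hR0 : 0 ≤ R) (hR : R < 1) (hz : ∀ j, ‖z j‖ ≤ R) :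
    ‖F z - F (fun j => if P j then z j else 1)‖ ^ 2 ≤
      2 * (1 - (F (fun j => if P j then 1 else z j)).re) := by
  obtain ⟨Q, hQ⟩ := exists_types R hR0 hR
  have hex : ∀ j, ∃ μ : Measure ℝ, PF μ ∧
      charFun μ ((2 * Q + 1 : ℤ) : ℝ) = z j ∧
      charFun μ ((Q + 1 : ℤ) : ℝ) = (if P j then z j else 1) ∧
      charFun μ (Q : ℝ) = (if P j then 1 else z j) := by
    intro j
    by_cases hj : P j
    · simp only [if_pos hj]
      exact (hQ (z j) (hz j)).1
    · simp only [if_neg hj]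
      exact (hQ (z j) (hz j)).2
  choose μ hμ h5 h3 h2 using hex
  have h1 := two_point hF μ hμ ((2 * Q + 1 : ℤ) : ℝ) ((Q + 1 : ℤ) : ℝ)
  have e1 : ((2 * Q + 1 : ℤ) : ℝ) - ((Q + 1 : ℤ) : ℝ) = (Q : ℝ) := by push_cast; ring
  rw [e1] at h1
  simp only [h5, h3, h2] at h1
  exact h1

/-! ### Monomials with finitely supported exponents -/

/-- the monomials -/
def MM (z : J → ℂ) (p : J →₀ ℕ × ℕ) : ℂ := p.prod fun j q => z j ^ q.1 * conj (z j) ^ q.2

lemma norm_MM_le_one (z : J → ℂ) (hz : ∀ j, ‖z j‖ ≤ 1) (p : J →₀ ℕ × ℕ) : ‖MM z p‖ ≤ 1 := by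
  unfold MM Finsupp.prod
  rw [norm_prod]
  apply Finset.prod_le_one (fun j _ => norm_nonneg _)
  intro j _
  rw [norm_mul, norm_pow, norm_pow, Complex.norm_conj]
  have h0 : 0 ≤ ‖z j‖ := norm_nonneg _
  have h1 : ‖z j‖ ^ (p j).1 ≤ 1 := pow_le_one₀ h0 (hz j)
  have h2 : ‖z j‖ ^ (p j).2 ≤ 1 := pow_le_one₀ h0 (hz j)
  exact mul_le_one₀ h1 (by positivity) h2

lemma MM_indicator (P : J → Prop) [DecidablePred P] (p : J →₀ ℕ × ℕ)
    [Decidable (∀ j ∈ p.support, P j)] :
    MM (fun j => if P j then 1 else 0) p = if ∀ j ∈ p.support, P j then 1 else 0 := by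
  unfold MM Finsupp.prod
  split_ifs with h
  · apply Finset.prod_eq_one
    intro j hj
    beta_reduce
    rw [if_pos (h j hj)]
    simp
  · push Not at h
    obtain ⟨j, hj, hPj⟩ := h
    apply Finset.prod_eq_zero hj
    beta_reduce
    rw [if_neg hPj]
    have hne : p j ≠ 0 := Finsupp.mem_support_iff.1 hj
    have : (p j).1 ≠ 0 ∨ (p j).2 ≠ 0 := by
      by_contra hcon
      push Not at hcon
      exact hne (Prod.ext hcon.1 hcon.2)
    rcases this with h | h
    · rw [zero_pow h, zero_mul]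
    · rw [map_zero, zero_pow h, mul_zero]

lemma continuous_MM {X : Type*} [TopologicalSpace X] (f : X → J → ℂ) (hf : ∀ j, Continuous fun x => f x j)
    (p : J →₀ ℕ × ℕ) : Continuous fun x => MM (f x) p := by
  unfold MM Finsupp.prod
  apply continuous_finsetProd
  intro j _
  exact ((hf j).pow _).mul ((Complex.continuous_conj.comp (hf j)).pow _)

variable [DecidableEq J]

/-- exponents supported on the finite set `S` -/
def emb (S : Finset J) (a : S → ℕ × ℕ) : J →₀ ℕ × ℕ :=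
  Finsupp.onFinset S (fun j => if h : j ∈ S then a ⟨j, h⟩ else 0) (by
    intro j hj
    by_contra h
    simp [h] at hj)

lemma emb_apply (S : Finset J) (a : S → ℕ × ℕ) (j : S) : emb S a j = a j := by
  simp [emb]

lemma emb_injective (S : Finset J) : Function.Injective (emb S) := by
  intro a b h
  funext j
  rw [← emb_apply S a j, h, emb_apply]

lemma mem_range_emb (S : Finset J) (p : J →₀ ℕ × ℕ) (hp : p.support ⊆ S) :
    p ∈ Set.range (emb S) := by
  refine ⟨fun j => p j, ?_⟩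
  ext1 j
  simp only [emb, Finsupp.onFinset_apply]
  split_ifs with h
  · rfl
  · by_contra hne
    exact h (hp (Finsupp.mem_support_iff.2 (Ne.symm hne)))

lemma MM_emb (z : J → ℂ) (S : Finset J) (a : S → ℕ × ℕ) :
    MM z (emb S a) = mon (fun j : S => z j) a := by
  unfold MM mon
  rw [Finsupp.prod_of_support_subset (s := S)]
  · rw [← Finset.prod_coe_sort]
    apply Finset.prod_congr rfl
    intro j _
    rw [emb_apply]
  · exact Finsupp.support_onFinset_subset
  · intro i _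
    simp

lemma exists_b {F : (J → ℂ) → ℂ} (hF : AdmI F) (S : Finset J) :
    ∃ b : (J →₀ ℕ × ℕ) → ℝ, (∀ p, 0 ≤ b p) ∧ HasSum b 1 ∧
      ∀ z : J → ℂ, (∀ j, ‖z j‖ ≤ 1) →
        HasSum (fun p => (b p : ℂ) * MM z p) (F (fun j => if j ∈ S then z j else 1)) := by
  classical
  set G : (S → ℂ) → ℂ := fun x => F (fun j => if h : j ∈ S then x ⟨j, h⟩ else 1) with hG
  have hadm : Adm G := by
    intro μ hμ
    obtain ⟨ρ, hρ, hρ'⟩ := hF (fun j => if h : j ∈ S then μ ⟨j, h⟩ else Measure.dirac 0) (by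
      intro j
      by_cases h : j ∈ S
      · simp only [dif_pos h]; exact hμ _
      · simp only [dif_neg h]; exact PF_dirac)
    refine ⟨ρ, hρ, fun ξ => ?_⟩
    rw [hρ', hG]
    simp only
    congr 1
    funext j
    by_cases h : j ∈ S
    · simp only [dif_pos h]
    · simp only [dif_neg h]; exact charFun_dirac_zero _
  obtain ⟨a, ha0, ha1, ha⟩ := forward hadm
  have hinj := emb_injective S
  refine ⟨Function.extend (emb S) a 0, ?_, ?_, ?_⟩
  · intro p
    by_cases hp : ∃ q, emb S q = p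
    · obtain ⟨q, rfl⟩ := hp
      rw [hinj.extend_apply]; exact ha0 q
    · rw [Function.extend_apply' _ _ _ hp]; exact le_rfl
  · rw [← hinj.hasSum_iff]
    · have : Function.extend (emb S) a 0 ∘ emb S = a := by
        funext q; exact hinj.extend_apply _ _ _
      rw [this]; exact ha1
    · intro p hp
      rw [Function.extend_apply' _ _ _ (fun h => hp h)]; rfl
  · intro z hz
    rw [← hinj.hasSum_iff]
    · have h1 := ha (fun j : S => z j) (fun j => hz j)
      have h2 : ((fun p => ((Function.extend (emb S) a 0 p : ℝ) : ℂ) * MM z p) ∘ emb S) =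
          fun q => (a q : ℂ) * mon (fun j : S => z j) q := by
        funext q
        simp only [Function.comp_apply]
        rw [hinj.extend_apply, MM_emb]
      rw [h2]
      have h3 : G (fun j : S => z j) = F (fun j => if j ∈ S then z j else 1) := by
        rw [hG]
        simp only
        congr 1
      rwa [h3] at h1
    · intro p hp
      rw [Function.extend_apply' _ _ _ (fun h => hp h)]
      simp

end

end Pool.Agent.Y844.CFN
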