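import Pool.Agent.Y844.CFN.Inf3

/-!
Functions of countably many variables acting on characteristic functions: the power series.
-/

namespace Pool.Agent.Y844.CFN

open MeasureTheory Filter Topology
open scoped ComplexConjugate

noncomputable section

set_option linter.unusedSectionVars false

lemma bad_bound {ι : Type} (c : ι → ℝ) (hc0 : ∀ p, 0 ≤ c p) (hc : Summable c) (m : ι → ℂ)
    (hm : ∀ p, ‖m p‖ ≤ 1) (good : ι → Prop) [DecidablePred good] (η : ℝ)
    (hη : ∀ s : Finset ι, (∀ p ∈ s, ¬ good p) → ∑ p ∈ s, c p ≤ η) :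
    ‖∑' p, (c p : ℂ) * m p - ∑' p, (if good p then (c p : ℂ) * m p else 0)‖ ≤ η := by
  classical
  have hn : ∀ p, ‖(c p : ℂ) * m p‖ ≤ c p := by
    intro p
    rw [norm_mul, Complex.norm_real, Real.norm_of_nonneg (hc0 p)]
    exact mul_le_of_le_one_right (hc0 p) (hm p)
  have s1 : Summable fun p => (c p : ℂ) * m p := Summable.of_norm_bounded hc hn
  have s2 : Summable fun p => (if good p then (c p : ℂ) * m p else 0) := by
    apply Summable.of_norm_bounded hc
    intro p
    split_ifs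
    · exact hn p
    · rw [norm_zero]; exact hc0 p
  rw [← s1.tsum_sub s2]
  have hle : ∀ p, ‖(c p : ℂ) * m p - (if good p then (c p : ℂ) * m p else 0)‖ ≤
      (if good p then 0 else c p) := by
    intro p
    split_ifs
    · simp
    · rw [sub_zero]; exact hn p
  have s3 : Summable fun p => (if good p then 0 else c p) := by
    apply Summable.of_nonneg_of_le (fun p => ?_) (fun p => ?_) hc
    · split_ifs
      · exact le_rfl
      · exact hc0 p
    · split_ifs
      · exact hc0 p
      · exact le_rfl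
  refine (tsum_of_norm_bounded s3.hasSum hle).trans ?_
  refine Real.tsum_le_of_sum_le (fun p => ?_) fun s => ?_
  · split_ifs
    · exact le_rfl
    · exact hc0 p
  · have : ∑ p ∈ s, (if good p then 0 else c p) = ∑ p ∈ s.filter (fun p => ¬ good p), c p := by
      rw [Finset.sum_filter]
      apply Finset.sum_congr rfl
      intro p _
      split_ifs <;> first | rfl | contradiction
    rw [this]
    exact hη _ fun p hp => (Finset.mem_filter.1 hp).2

variable {J : Type} [DecidableEq J]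

/-- the mass of the exponents reaching late coordinates is small -/
lemma mass_bound {F : (J → ℂ) → ℂ} (e : J → ℕ) (N : ℕ) (η : ℝ)
    (hN : ∀ w : J → ℂ, (∀ j, ‖w j‖ ≤ 1) → ‖F (fun j => if e j ≤ N then 1 else w j) - 1‖ ≤ η)
    (S : Finset J) (b : (J →₀ ℕ × ℕ) → ℝ) (hb0 : ∀ p, 0 ≤ b p) (hb1 : HasSum b 1)
    (hb : ∀ z : J → ℂ, (∀ j, ‖z j‖ ≤ 1) →
        HasSum (fun p => (b p : ℂ) * MM z p) (F (fun j => if j ∈ S then z j else 1)))
    (s : Finset (J →₀ ℕ × ℕ)) (hs : ∀ p ∈ s, ¬ ∀ j ∈ p.support, e j ≤ N) :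
    ∑ p ∈ s, b p ≤ η := by
  classical
  have h1 := hb (fun j => if e j ≤ N then 1 else 0) (by
    intro j
    split_ifs <;> simp)
  have h2 : (fun j => if j ∈ S then (if e j ≤ N then (1 : ℂ) else 0) else 1) =
      fun j => if e j ≤ N then 1 else (if j ∈ S then 0 else 1) := by
    funext j
    by_cases h : e j ≤ N
    · simp [h]
    · simp [h]
  rw [h2] at h1
  have h3 := hN (fun j => if j ∈ S then 0 else 1) (by
    intro j
    split_ifs <;> simp)
  set T := F (fun j => if e j ≤ N then 1 else (if j ∈ S then 0 else 1)) with hT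
  have h4 : HasSum (fun p => ((b p : ℝ) : ℂ)) ((1 : ℝ) : ℂ) := Complex.hasSum_ofReal.2 hb1
  have h5 := (h4.sub h1).mapL Complex.reCLM
  have h6 : (fun p => Complex.reCLM (((b p : ℝ) : ℂ) -
      (b p : ℂ) * MM (fun j => if e j ≤ N then 1 else 0) p)) =
      fun p => if ∀ j ∈ p.support, e j ≤ N then 0 else b p := by
    funext p
    rw [MM_indicator]
    split_ifs <;> simp
  have h7 : HasSum (fun p => if ∀ j ∈ p.support, e j ≤ N then 0 else b p)
      (Complex.reCLM (((1 : ℝ) : ℂ) - T)) := by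
    rw [← h6]; exact h5
  calc ∑ p ∈ s, b p = ∑ p ∈ s, (if ∀ j ∈ p.support, e j ≤ N then 0 else b p) := by
        apply Finset.sum_congr rfl
        intro p hp
        rw [if_neg (hs p hp)]
    _ ≤ Complex.reCLM (((1 : ℝ) : ℂ) - T) := by
        apply sum_le_hasSum s _ h7
        intro p _
        split_ifs
        · exact le_rfl
        · exact hb0 p
    _ ≤ ‖((1 : ℝ) : ℂ) - T‖ := by rw [Complex.reCLM_apply]; exact Complex.re_le_norm _
    _ = ‖T - 1‖ := by rw [Complex.ofReal_one, norm_sub_rev]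
    _ ≤ η := h3

lemma exists_seriesI {F : (J → ℂ) → ℂ} (hF : AdmI F) (e : J → ℕ) (he : Function.Injective e) :
    ∃ a : (J →₀ ℕ × ℕ) → ℝ, (∀ p, 0 ≤ a p) ∧ Summable a ∧
      ∀ R : ℝ, 0 ≤ R → R < 1 → ∀ z : J → ℂ, (∀ j, ‖z j‖ ≤ R) →
        HasSum (fun p => (a p : ℂ) * MM z p) (F z) := by
  classical
  obtain ⟨S, hS⟩ : ∃ S : ℕ → Finset J, ∀ N j, j ∈ S N ↔ e j ≤ N :=
    ⟨fun N => (Finset.range (N + 1)).preimage e he.injOn, fun N j => by
      rw [Finset.mem_preimage, Finset.mem_range]; omega⟩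
  choose b hb0 hb1 hb using fun N => exists_b hF (S N)
  set U : Ultrafilter ℕ := hyperfilter ℕ with hU
  have hsle : ∀ n (s : Finset (J →₀ ℕ × ℕ)), ∑ p ∈ s, b n p ≤ 1 :=
    fun n s => sum_le_hasSum s (fun p _ => hb0 n p) (hb1 n)
  have hIcc : ∀ n p, b n p ∈ Set.Icc (0 : ℝ) 1 := by
    intro n p
    refine ⟨hb0 n p, ?_⟩
    have := hsle n {p}
    simpa using this
  have hlim : ∀ p, ∃ L ∈ Set.Icc (0 : ℝ) 1, Tendsto (fun n => b n p) U (𝓝 L) := by
    intro p
    have h1 : (↑(U.map fun n => b n p) : Filter ℝ) ≤ 𝓟 (Set.Icc (0 : ℝ) 1) := by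
      rw [le_principal_iff, Ultrafilter.mem_coe, Ultrafilter.mem_map]
      exact Filter.univ_mem' (fun n => hIcc n p)
    obtain ⟨L, hL, hL'⟩ := isCompact_Icc.ultrafilter_le_nhds _ h1
    exact ⟨L, hL, hL'⟩
  choose L hL hL' using hlim
  have hLs : ∀ s : Finset (J →₀ ℕ × ℕ), ∑ p ∈ s, L p ≤ 1 := by
    intro s
    have h1 : Tendsto (fun n => ∑ p ∈ s, b n p) U (𝓝 (∑ p ∈ s, L p)) :=
      tendsto_finsetSum s fun p _ => hL' p
    exact le_of_tendsto h1 (Filter.Eventually.of_forall fun n => hsle n s)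
  have hLsum : Summable L := summable_of_sum_le (fun p => (hL p).1) hLs
  refine ⟨L, fun p => (hL p).1, hLsum, ?_⟩
  intro R hR0 hR1 z hz
  have hz1 : ∀ j, ‖z j‖ ≤ 1 := fun j => (hz j).trans hR1.le
  have hLn : ∀ p, ‖(L p : ℂ) * MM z p‖ ≤ L p := by
    intro p
    rw [norm_mul, Complex.norm_real, Real.norm_of_nonneg (hL p).1]
    exact mul_le_of_le_one_right (hL p).1 (norm_MM_le_one z hz1 p)
  have hsum : Summable fun p => (L p : ℂ) * MM z p := Summable.of_norm_bounded hLsum hLn
  suffices hmain : ∀ ε : ℝ, 0 < ε → ‖F z - ∑' p, (L p : ℂ) * MM z p‖ ≤ ε by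
    have h1 : ‖F z - ∑' p, (L p : ℂ) * MM z p‖ ≤ 0 :=
      le_of_forall_pos_le_add fun ε hε => by rw [zero_add]; exact hmain ε hε
    have h2 : F z = ∑' p, (L p : ℂ) * MM z p := by
      have := norm_le_zero_iff.1 h1
      exact sub_eq_zero.1 this
    rw [h2]
    exact hsum.hasSum
  intro ε hε
  set η : ℝ := min (ε / 4) (ε ^ 2 / 32) with hη
  have hη0 : 0 < η := lt_min (by positivity) (by positivity)
  have hη1 : η ≤ ε / 4 := min_le_left _ _
  have hη2 : η ≤ ε ^ 2 / 32 := min_le_right _ _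
  obtain ⟨M0, hM0⟩ := tail_uniform hF e η hη0
  set good : (J →₀ ℕ × ℕ) → Prop := fun p => ∀ j ∈ p.support, e j ≤ M0 with hgood
  -- cutting off
  have hcut : ∀ N, M0 ≤ N → ‖F z - F (fun j => if j ∈ S N then z j else 1)‖ ≤ ε / 4 := by
    intro N hN
    have h1 := cut hF (fun j => j ∈ S N) z R hR0 hR1 hz
    have h2 := hM0 (fun j => if j ∈ S N then 1 else z j) (by
      intro j
      split_ifs
      · simp
      · exact hz1 j)
    have h3 : (fun j => if e j ≤ M0 then 1 else (if j ∈ S N then 1 else z j)) =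
        fun j => if j ∈ S N then 1 else z j := by
      funext j
      by_cases h : e j ≤ M0
      · have : j ∈ S N := (hS N j).2 (h.trans hN)
        simp [h, this]
      · simp [h]
    rw [h3] at h2
    set c := F (fun j => if j ∈ S N then 1 else z j)
    have h4 : 1 - c.re ≤ ‖c - 1‖ := by
      have := Complex.re_le_norm (1 - c)
      rw [norm_sub_rev] at this
      simpa using this
    have h5 : ‖F z - F (fun j => if j ∈ S N then z j else 1)‖ ^ 2 ≤ (ε / 4) ^ 2 := by nlinarith
    exact le_of_sq_le_sq h5 (by positivity)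
  -- the masses
  have hmb : ∀ N, ∀ s : Finset (J →₀ ℕ × ℕ), (∀ p ∈ s, ¬ good p) → ∑ p ∈ s, b N p ≤ η :=
    fun N s hs => mass_bound e M0 η hM0 (S N) (b N) (hb0 N) (hb1 N) (hb N) s hs
  have hmL : ∀ s : Finset (J →₀ ℕ × ℕ), (∀ p ∈ s, ¬ good p) → ∑ p ∈ s, L p ≤ η := by
    intro s hs
    have h1 : Tendsto (fun n => ∑ p ∈ s, b n p) U (𝓝 (∑ p ∈ s, L p)) :=
      tendsto_finsetSum s fun p _ => hL' p
    exact le_of_tendsto h1 (Filter.Eventually.of_forall fun n => hmb n s hs)
  have hbadN : ∀ N, ‖F (fun j => if j ∈ S N then z j else 1) -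
      ∑' p, (if good p then (b N p : ℂ) * MM z p else 0)‖ ≤ η := by
    intro N
    have h1 := bad_bound (b N) (hb0 N) (hb1 N).summable (MM z) (norm_MM_le_one z hz1) good η
      (hmb N)
    rwa [(hb N z hz1).tsum_eq] at h1
  have hbadL := bad_bound L (fun p => (hL p).1) hLsum (MM z) (norm_MM_le_one z hz1) good η hmL
  -- the limit over the good exponents
  have hinj := emb_injective (S M0)
  have hbound : Summable (Function.extend (emb (S M0)) (maj R) 0) := by
    rw [← hinj.summable_iff]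
    · have : Function.extend (emb (S M0)) (maj R) 0 ∘ emb (S M0) = maj R := by
        funext q; exact hinj.extend_apply _ _ _
      rw [this]
      exact summable_maj R hR0 hR1
    · intro p hp
      rw [Function.extend_apply' _ _ _ (fun h => hp h)]; rfl
  have hT : Tendsto (fun n => ∑' p, (if good p then (b n p : ℂ) * MM z p else 0)) U
      (𝓝 (∑' p, (if good p then (L p : ℂ) * MM z p else 0))) := by
    apply tendsto_tsum_of_dominated_convergence hbound
    · intro p
      split_ifs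
      · exact ((Complex.continuous_ofReal.tendsto _).comp (hL' p)).mul_const _
      · exact tendsto_const_nhds
    · refine Filter.Eventually.of_forall fun n p => ?_
      by_cases hp : p ∈ Set.range (emb (S M0))
      · obtain ⟨q, rfl⟩ := hp
        rw [hinj.extend_apply]
        have hmaj : 0 ≤ maj R q := maj_nonneg R hR0 q
        split_ifs
        · rw [norm_mul, Complex.norm_real, Real.norm_of_nonneg (hb0 n _), MM_emb]
          calc b n (emb (S M0) q) * ‖mon (fun j : S M0 => z j) q‖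
              ≤ 1 * ‖mon (fun j : S M0 => z j) q‖ :=
                mul_le_mul_of_nonneg_right (hIcc n _).2 (norm_nonneg _)
            _ = ‖mon (fun j : S M0 => z j) q‖ := one_mul _
            _ ≤ maj R q := norm_mon_le (fun j : S M0 => z j) R (fun j => hz j) q
        · rw [norm_zero]; exact hmaj
      · rw [Function.extend_apply' _ _ _ (fun h => hp h)]
        have hng : ¬ good p := by
          intro hg
          apply hp
          apply mem_range_emb
          intro j hj
          exact (hS M0 j).2 (hg j hj)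
        rw [if_neg hng]
        simp
  have ev1 : ∀ᶠ n in (U : Filter ℕ), ‖∑' p, (if good p then (b n p : ℂ) * MM z p else 0) -
      ∑' p, (if good p then (L p : ℂ) * MM z p else 0)‖ < ε / 4 :=
    (tendsto_iff_norm_sub_tendsto_zero.1 hT).eventually (gt_mem_nhds (by positivity))
  have ev2 : ∀ᶠ n in (U : Filter ℕ), M0 ≤ n :=
    Nat.hyperfilter_le_atTop (eventually_ge_atTop M0)
  obtain ⟨N, hN1, hN2⟩ := (ev1.and ev2).exists
  have g1 := hcut N hN2
  have g2 := hbadN N
  set t1 := F (fun j => if j ∈ S N then z j else 1)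
  set t2 := ∑' p, (if good p then (b N p : ℂ) * MM z p else 0)
  set t3 := ∑' p, (if good p then (L p : ℂ) * MM z p else 0)
  set t4 := ∑' p, (L p : ℂ) * MM z p
  have e1 : F z - t4 = (F z - t1) + (t1 - t2) + (t2 - t3) - (t4 - t3) := by ring
  rw [e1]
  calc ‖(F z - t1) + (t1 - t2) + (t2 - t3) - (t4 - t3)‖
      ≤ ‖(F z - t1) + (t1 - t2) + (t2 - t3)‖ + ‖t4 - t3‖ := norm_sub_le _ _
    _ ≤ ‖F z - t1‖ + ‖t1 - t2‖ + ‖t2 - t3‖ + ‖t4 - t3‖ := by
        gcongr; exact norm_add₃_le
    _ ≤ ε / 4 + η + ε / 4 + η := by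
        gcongr
    _ ≤ ε := by linarith

/-! ### The boundary -/

lemma exists_boundary' : ∃ B : ℝ → ℝ, (∀ ξ ∈ Set.Ioo (0 : ℝ) 1, 0 ≤ B ξ ∧ B ξ < 1) ∧
    ∀ x : ℂ, ‖x‖ ≤ 1 → ∃ μ : Measure ℝ, PF μ ∧ charFun μ (1 : ℝ) = x ∧
      ∀ ξ ∈ Set.Ioo (0 : ℝ) 1, ‖charFun μ ξ‖ ≤ B ξ := by
  refine ⟨fun ξ => max ((1 + Real.cos (2 * Real.pi * ξ)) / 2) (Real.cos (Real.pi / 2 * ξ)),
    ?_, ?_⟩
  · intro ξ hξ
    have hpi := Real.pi_pos
    have h1 : Real.cos (2 * Real.pi * ξ) < 1 := by
      apply lt_of_le_of_ne (Real.cos_le_one _)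
      intro h
      rw [Real.cos_eq_one_iff_of_lt_of_lt] at h
      · have : ξ = 0 := by
          rcases mul_eq_zero.1 h with h | h
          · exfalso; linarith
          · exact h
        exact hξ.1.ne' this
      · have := hξ.1; nlinarith
      · have := hξ.2; nlinarith
    have h1' : -1 ≤ Real.cos (2 * Real.pi * ξ) := Real.neg_one_le_cos _
    have h3 : Real.cos (Real.pi / 2 * ξ) < 1 := by
      apply lt_of_le_of_ne (Real.cos_le_one _)
      intro h
      rw [Real.cos_eq_one_iff_of_lt_of_lt] at h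
      · have : ξ = 0 := by
          rcases mul_eq_zero.1 h with h | h
          · exfalso; linarith
          · exact h
        exact hξ.1.ne' this
      · have := hξ.1; nlinarith
      · have := hξ.2; nlinarith
    exact ⟨le_max_of_le_left (by linarith), max_lt (by linarith) h3⟩
  intro x hx
  set r : ℝ := ‖x‖ with hr
  have hr0 : 0 ≤ r := norm_nonneg _
  set α : ℝ := x.arg with hα
  obtain ⟨μ, hμ, hμ'⟩ := exists_finite_measure (ι := Fin 5)
    ![r / 2, r / 4, r / 4, (1 - r) / 2, (1 - r) / 2]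
    (by intro i
        fin_cases i
        · exact div_nonneg hr0 (by norm_num)
        · exact div_nonneg hr0 (by norm_num)
        · exact div_nonneg hr0 (by norm_num)
        · exact div_nonneg (by linarith) (by norm_num)
        · exact div_nonneg (by linarith) (by norm_num))
    (by simp [Fin.sum_univ_five]; ring)
    ![α, α + 2 * Real.pi, α - 2 * Real.pi, α + Real.pi / 2, α - Real.pi / 2]
  have key : ∀ ξ : ℝ, charFun μ ξ = Complex.exp ((α * ξ : ℝ) * Complex.I) *
      ((r * ((1 + Real.cos (2 * Real.pi * ξ)) / 2) + (1 - r) * Real.cos (Real.pi / 2 * ξ) : ℝ) :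
        ℂ) := by
    intro ξ
    rw [hμ', Fin.sum_univ_five]
    simp only [Matrix.cons_val]
    have e : ∀ t : ℝ, Complex.exp (((ξ * (α + t) : ℝ) : ℂ) * Complex.I) =
        Complex.exp ((α * ξ : ℝ) * Complex.I) * Complex.exp ((t * ξ : ℝ) * Complex.I) := by
      intro t
      rw [← Complex.exp_add]
      congr 1
      push_cast; ring
    have e0 : Complex.exp (((ξ * α : ℝ) : ℂ) * Complex.I) =
        Complex.exp ((α * ξ : ℝ) * Complex.I) := by rw [mul_comm ξ α]
    have c : ∀ t : ℝ, ((Real.cos (t * ξ) : ℝ) : ℂ) =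
        (Complex.exp ((t * ξ : ℝ) * Complex.I) + Complex.exp ((-t * ξ : ℝ) * Complex.I)) / 2 := by
      intro t
      rw [Complex.ofReal_cos, Complex.cos]
      push_cast
      ring_nf
    rw [sub_eq_add_neg α (2 * Real.pi), sub_eq_add_neg α (Real.pi / 2), e, e, e, e, e0]
    push_cast [c]
    ring
  refine ⟨μ, hμ, ?_, ?_⟩
  · rw [key]
    have h1 : Real.cos (2 * Real.pi * 1) = 1 := by rw [mul_one]; exact Real.cos_two_pi
    have h2 : Real.cos (Real.pi / 2 * 1) = 0 := by rw [mul_one]; exact Real.cos_pi_div_two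
    rw [h1, h2]
    have h3 := Complex.norm_mul_exp_arg_mul_I x
    rw [← hr, ← hα] at h3
    push_cast
    rw [mul_one, mul_zero, add_zero]
    linear_combination h3
  · intro ξ hξ
    rw [key, norm_mul, Complex.norm_exp_ofReal_mul_I, one_mul, Complex.norm_real]
    have hpi := Real.pi_pos
    have h1' : -1 ≤ Real.cos (2 * Real.pi * ξ) := Real.neg_one_le_cos _
    have h2 : 0 < Real.cos (Real.pi / 2 * ξ) := by
      apply Real.cos_pos_of_mem_Ioo
      constructor
      · have := hξ.1; nlinarith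
      · have := hξ.2; nlinarith
    have hr1 : r ≤ 1 := hx
    rw [Real.norm_of_nonneg]
    · have b1 := le_max_left ((1 + Real.cos (2 * Real.pi * ξ)) / 2) (Real.cos (Real.pi / 2 * ξ))
      have b2 := le_max_right ((1 + Real.cos (2 * Real.pi * ξ)) / 2) (Real.cos (Real.pi / 2 * ξ))
      have a1 := mul_le_mul_of_nonneg_left b1 hr0
      have a2 := mul_le_mul_of_nonneg_left b2 (by linarith : 0 ≤ 1 - r)
      linarith
    · have a1 : 0 ≤ r * ((1 + Real.cos (2 * Real.pi * ξ)) / 2) := by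
        apply mul_nonneg hr0; linarith
      have a2 : 0 ≤ (1 - r) * Real.cos (Real.pi / 2 * ξ) := by
        apply mul_nonneg _ h2.le; linarith
      linarith

theorem forwardI {F : (J → ℂ) → ℂ} (hF : AdmI F) (e : J → ℕ) (he : Function.Injective e) :
    ∃ a : (J →₀ ℕ × ℕ) → ℝ, (∀ p, 0 ≤ a p) ∧ HasSum a 1 ∧
      ∀ z : J → ℂ, (∀ j, ‖z j‖ ≤ 1) → HasSum (fun p => (a p : ℂ) * MM z p) (F z) := by
  obtain ⟨a, ha0, hasum, ha⟩ := exists_seriesI hF e he
  have hbd : ∀ x : J → ℂ, (∀ j, ‖x j‖ ≤ 1) → ∀ p, ‖(a p : ℂ) * MM x p‖ ≤ a p := by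
    intro x hx p
    rw [norm_mul, Complex.norm_real, Real.norm_of_nonneg (ha0 p)]
    exact mul_le_of_le_one_right (ha0 p) (norm_MM_le_one x hx p)
  obtain ⟨B, hB, hBx⟩ := exists_boundary'
  have hmain : ∀ x : J → ℂ, (∀ j, ‖x j‖ ≤ 1) →
      HasSum (fun p => (a p : ℂ) * MM x p) (F x) := by
    intro x hx
    choose μ hμ hμ1 hμ2 using fun j => hBx (x j) (hx j)
    obtain ⟨ρ, hρ, hρ'⟩ := hF μ hμ
    have hμp : ∀ j, IsProbabilityMeasure (μ j) := fun j => (hμ j).1
    have c1 : Continuous (charFun ρ) := continuous_charFun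
    have c2 : Continuous fun ξ : ℝ =>
        ∑' p, (a p : ℂ) * MM (fun j => charFun (μ j) ξ) p := by
      refine continuous_tsum (u := a) ?_ hasum ?_
      · intro p
        exact continuous_const.mul (continuous_MM _ (fun j => continuous_charFun) p)
      · intro p ξ
        exact hbd _ (fun j => norm_charFun_le_one ξ) p
    have heq : Set.EqOn (charFun ρ) (fun ξ : ℝ =>
        ∑' p, (a p : ℂ) * MM (fun j => charFun (μ j) ξ) p) (Set.Ioo 0 1) := by
      intro ξ hξ
      simp only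
      rw [hρ', (ha (B ξ) (hB ξ hξ).1 (hB ξ hξ).2 _ (fun j => hμ2 j ξ hξ)).tsum_eq]
    have h1 := heq.closure c1 c2
    rw [closure_Ioo (by norm_num)] at h1
    have h2 := h1 (Set.right_mem_Icc.2 zero_le_one)
    simp only [hρ', hμ1] at h2
    have h3 : F x = ∑' p, (a p : ℂ) * MM x p := h2
    rw [h3]
    apply Summable.hasSum
    exact Summable.of_norm_bounded hasum (hbd x hx)
  refine ⟨a, ha0, ?_, hmain⟩
  have h1 := hmain (fun _ => 1) (by simp)
  rw [F_oneI hF] at h1
  have h2 : (fun p => (a p : ℂ) * MM (fun _ : J => (1 : ℂ)) p) = fun p => ((a p : ℝ) : ℂ) := by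
    funext p; simp [MM, Finsupp.prod]
  rw [h2, ← Complex.ofReal_one] at h1
  exact Complex.hasSum_ofReal.1 h1

end

end Pool.Agent.Y844.CFN
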