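import Pool.Agent.Y844.CFN.Fwd

/-!
Functions of finitely many variables acting on characteristic functions on a finite-dimensional
real inner product space `E`: reduction to the line, and the converse direction.
-/

namespace Pool.Agent.Y844.CFN

open MeasureTheory Filter Topology
open scoped ComplexConjugate

noncomputable section

set_option linter.unusedSectionVars false

variable {E : Type} [NormedAddCommGroup E] [InnerProductSpace ℝ E] [FiniteDimensional ℝ E]
  [MeasurableSpace E] [BorelSpace E]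

section converse

lemma exists_mul (μ ν : Measure E) [IsProbabilityMeasure μ] [IsProbabilityMeasure ν] :
    ∃ κ : Measure E, IsProbabilityMeasure κ ∧ ∀ ξ : E, charFun κ ξ = charFun μ ξ * charFun ν ξ :=
  ⟨μ.conv ν, inferInstance, fun ξ => charFun_conv ξ⟩

lemma exists_conj (μ : Measure E) [IsProbabilityMeasure μ] :
    ∃ κ : Measure E, IsProbabilityMeasure κ ∧ ∀ ξ : E, charFun κ ξ = conj (charFun μ ξ) := by
  refine ⟨μ.map (fun x => (-1 : ℝ) • x), Measure.isProbabilityMeasure_map (by fun_prop), ?_⟩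
  intro ξ
  rw [charFun_map_smul, neg_one_smul, charFun_neg]

lemma exists_pow (μ : Measure E) [IsProbabilityMeasure μ] (n : ℕ) :
    ∃ κ : Measure E, IsProbabilityMeasure κ ∧ ∀ ξ : E, charFun κ ξ = charFun μ ξ ^ n := by
  induction n with
  | zero => exact ⟨Measure.dirac 0, inferInstance, fun ξ => by simp⟩
  | succ n ih =>
    obtain ⟨κ, hκ, h⟩ := ih
    obtain ⟨κ', hκ', h'⟩ := exists_mul κ μ
    exact ⟨κ', hκ', fun ξ => by rw [h', h, pow_succ]⟩

lemma exists_prod {J : Type} [DecidableEq J] (s : Finset J) (g : J → E → ℂ)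
    (hg : ∀ j, ∃ κ : Measure E, IsProbabilityMeasure κ ∧ ∀ ξ : E, charFun κ ξ = g j ξ) :
    ∃ κ : Measure E, IsProbabilityMeasure κ ∧ ∀ ξ : E, charFun κ ξ = ∏ j ∈ s, g j ξ := by
  induction s using Finset.induction_on with
  | empty => exact ⟨Measure.dirac 0, inferInstance, fun ξ => by simp⟩
  | insert i s hi ih =>
    obtain ⟨κ, hκ, h⟩ := ih
    obtain ⟨κ', hκ', h'⟩ := hg i
    obtain ⟨κ'', hκ'', h''⟩ := exists_mul κ' κ
    exact ⟨κ'', hκ'', fun ξ => by rw [h'', h, h', Finset.prod_insert hi]⟩

variable {J : Type} [Fintype J] [DecidableEq J]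

lemma exists_mon (μ : J → Measure E) (hμ : ∀ j, IsProbabilityMeasure (μ j)) (p : J → ℕ × ℕ) :
    ∃ κ : Measure E, IsProbabilityMeasure κ ∧
      ∀ ξ : E, charFun κ ξ = mon (fun j => charFun (μ j) ξ) p := by
  unfold mon
  apply exists_prod Finset.univ
    (fun j ξ => charFun (μ j) ξ ^ (p j).1 * conj (charFun (μ j) ξ) ^ (p j).2)
  intro j
  obtain ⟨μ', _, hμ'⟩ := exists_conj (μ j)
  obtain ⟨k1, _, h1⟩ := exists_pow (μ j) (p j).1
  obtain ⟨k2, _, h2⟩ := exists_pow μ' (p j).2
  obtain ⟨k3, hk3, h3⟩ := exists_mul k1 k2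
  exact ⟨k3, hk3, fun ξ => by rw [h3, h1, h2, hμ']⟩

/-- a convex combination of monomials acts on characteristic functions -/
theorem converse {a : (J → ℕ × ℕ) → ℝ} (ha0 : ∀ p, 0 ≤ a p)
    (ha1 : HasSum a 1) (μ : J → Measure E) (hμ : ∀ j, IsProbabilityMeasure (μ j)) :
    ∃ ρ : Measure E, IsProbabilityMeasure ρ ∧
      ∀ ξ : E, HasSum (fun p => (a p : ℂ) * mon (fun j => charFun (μ j) ξ) p) (charFun ρ ξ) := by
  choose κ hκ hκ' using exists_mon μ hμ
  set ρ : Measure E := Measure.sum fun p => ENNReal.ofReal (a p) • κ p with hρ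
  have hprob : IsProbabilityMeasure ρ := by
    refine ⟨?_⟩
    rw [hρ, Measure.sum_apply _ MeasurableSet.univ]
    simp only [Measure.coe_smul, Pi.smul_apply, measure_univ, smul_eq_mul, mul_one]
    rw [← ENNReal.ofReal_tsum_of_nonneg ha0 ha1.summable, ha1.tsum_eq, ENNReal.ofReal_one]
  refine ⟨ρ, hprob, fun ξ => ?_⟩
  have hint : Integrable (fun x : E => Complex.exp ((inner ℝ x ξ : ℝ) * Complex.I)) ρ := by
    refine (integrable_const (1 : ℝ)).mono' ?_ ?_
    · exact (by fun_prop : Continuous fun x : E =>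
        Complex.exp ((inner ℝ x ξ : ℝ) * Complex.I)).aestronglyMeasurable
    · exact ae_of_all _ fun x => (Complex.norm_exp_ofReal_mul_I _).le
  have h1 := hasSum_integral_measure hint
  have h2 : ∀ p, ∫ x, Complex.exp ((inner ℝ x ξ : ℝ) * Complex.I) ∂(ENNReal.ofReal (a p) • κ p) =
      (a p : ℂ) * mon (fun j => charFun (μ j) ξ) p := by
    intro p
    rw [integral_smul_measure, ENNReal.toReal_ofReal (ha0 p), ← hκ', charFun_apply,
      Complex.real_smul]
  simp_rw [h2] at h1
  rw [charFun_apply]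
  exact h1

end converse

section reduction

variable {J : Type} [Fintype J] [DecidableEq J]

/-- admissibility on `E` for finitely supported measures gives admissibility on the line -/
theorem adm_of_space [Nontrivial E] {F : (J → ℂ) → ℂ}
    (hF : ∀ μ : J → Measure E, (∀ j, IsProbabilityMeasure (μ j)) →
      (∀ j, ∃ s : Finset E, μ j (s : Set E)ᶜ = 0) →
      ∃ ρ : Measure E, IsProbabilityMeasure ρ ∧
        ∀ ξ : E, charFun ρ ξ = F (fun j => charFun (μ j) ξ)) : Adm F := by
  classical
  obtain ⟨e, he⟩ : ∃ e : E, ‖e‖ = 1 := by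
    obtain ⟨v, hv⟩ := exists_ne (0 : E)
    exact ⟨(‖v‖⁻¹ : ℝ) • v, by rw [norm_smul, norm_inv, norm_norm]; field_simp⟩
  have hee : ∀ s : ℝ, inner ℝ e (s • e) = s := by
    intro s
    rw [inner_smul_right, real_inner_self_eq_norm_sq, he]
    ring
  intro μ hμ
  have hμp : ∀ j, IsProbabilityMeasure (μ j) := fun j => (hμ j).1
  have hL : Measurable fun r : ℝ => r • e := by fun_prop
  obtain ⟨ρ, hρ, hρ'⟩ := hF (fun j => (μ j).map (fun r : ℝ => r • e))
    (fun j => Measure.isProbabilityMeasure_map hL.aemeasurable) (by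
      intro j
      obtain ⟨s, hs⟩ := (hμ j).2
      refine ⟨s.image (fun r : ℝ => r • e), ?_⟩
      rw [Measure.map_apply hL (Finset.measurableSet _).compl]
      refine measure_mono_null ?_ hs
      intro r hr hr'
      apply hr
      simp only [Finset.coe_image]
      exact ⟨r, hr', rfl⟩)
  have hcf : ∀ (j : J) (s : ℝ), charFun ((μ j).map (fun r : ℝ => r • e)) (s • e) =
      charFun (μ j) s := by
    intro j s
    rw [charFun_apply, charFun_apply_real, integral_map hL.aemeasurable
      (by fun_prop : Continuous fun x : E =>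
        Complex.exp ((inner ℝ x (s • e) : ℝ) * Complex.I)).aestronglyMeasurable]
    congr 1
    funext r
    rw [inner_smul_left, hee]
    simp only [conj_trivial]
    congr 1
    push_cast
    ring
  have hP : Measurable fun x : E => (inner ℝ x e : ℝ) := by fun_prop
  refine ⟨ρ.map (fun x : E => (inner ℝ x e : ℝ)),
    Measure.isProbabilityMeasure_map hP.aemeasurable, fun s => ?_⟩
  have h1 : charFun (ρ.map (fun x : E => (inner ℝ x e : ℝ))) s = charFun ρ (s • e) := by
    rw [charFun_apply_real, charFun_apply, integral_map hP.aemeasurable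
      (by fun_prop : Continuous fun x : ℝ =>
        Complex.exp ((s : ℂ) * (x : ℂ) * Complex.I)).aestronglyMeasurable]
    congr 1
    funext x
    rw [inner_smul_right]
    push_cast
    ring_nf
  rw [h1, hρ']
  simp_rw [hcf]

end reduction

end

end Pool.Agent.Y844.CFN
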